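import Mathlib

/-!
# The primitive of a cusp form of weight two
-/

open Complex Filter Topology

namespace Pool.Agent.TH133.SH

/-- The series `∑ a(k) exp(2 π i k τ)`. -/
noncomputable def fser (a : ℕ → ℤ) (τ : ℂ) : ℂ :=
  ∑' k : ℕ, (a k : ℂ) * Complex.exp (2 * (Real.pi : ℂ) * Complex.I * (k : ℂ) * τ)

/-- The series `∑ (a(k) / k) exp(2 π i k τ)`. -/
noncomputable def Fser (a : ℕ → ℤ) (τ : ℂ) : ℂ :=
  ∑' k : ℕ, (a k : ℂ) / (k : ℂ) * Complex.exp (2 * (Real.pi : ℂ) * Complex.I * (k : ℂ) * τ)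

variable {a : ℕ → ℤ}

lemma norm_term (k : ℕ) (z : ℂ) :
    ‖(a k : ℂ) * Complex.exp (2 * (Real.pi : ℂ) * Complex.I * (k : ℂ) * z)‖ =
      |(a k : ℝ)| * Real.exp (-(2 * Real.pi * k * z.im)) := by
  rw [norm_mul, Complex.norm_exp]
  congr 1
  · rw [Complex.norm_intCast]
  · congr 1
    simp [Complex.mul_re, Complex.mul_im]

lemma hasDerivAt_Fser (h0 : a 0 = 0)
    (hs : ∀ τ : ℂ, 0 < τ.im → Summable (fun k : ℕ => (a k : ℂ) *
      Complex.exp (2 * (Real.pi : ℂ) * Complex.I * (k : ℂ) * τ))) {z : ℂ} (hz : 0 < z.im) :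
    HasDerivAt (Fser a) (2 * (Real.pi : ℂ) * Complex.I * fser a z) z := by
  set y : ℝ := z.im / 2 with hy
  have hy0 : 0 < y := by positivity
  set t : Set ℂ := {w : ℂ | y < w.im} with ht
  have hto : IsOpen t := isOpen_lt continuous_const Complex.continuous_im
  have htc : Convex ℝ t := convex_halfSpace_im_gt y
  have hzt : z ∈ t := by
    change y < z.im
    linarith
  have hsum : Summable (fun k : ℕ => 2 * Real.pi *
      (|(a k : ℝ)| * Real.exp (-(2 * Real.pi * k * y)))) := by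
    have h1 := (hs (y * Complex.I) (by simpa using hy0)).norm
    apply Summable.mul_left
    refine h1.congr (fun k => ?_)
    rw [norm_term]
    simp
  have hbd : ∀ (k : ℕ) (w : ℂ), w ∈ t →
      ‖2 * (Real.pi : ℂ) * Complex.I * ((a k : ℂ) *
        Complex.exp (2 * (Real.pi : ℂ) * Complex.I * (k : ℂ) * w))‖ ≤
      2 * Real.pi * (|(a k : ℝ)| * Real.exp (-(2 * Real.pi * k * y))) := by
    intro k w hw
    rw [norm_mul, norm_term]
    have e1 : ‖2 * (Real.pi : ℂ) * Complex.I‖ = 2 * Real.pi := by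
      rw [norm_mul, norm_mul, Complex.norm_I, Complex.norm_real, Real.norm_eq_abs,
        abs_of_pos Real.pi_pos]
      simp
    rw [e1]
    have hw' : y < w.im := hw
    gcongr
  have hd : ∀ (k : ℕ) (w : ℂ), w ∈ t → HasDerivAt (fun w : ℂ => (a k : ℂ) / (k : ℂ) *
      Complex.exp (2 * (Real.pi : ℂ) * Complex.I * (k : ℂ) * w))
      (2 * (Real.pi : ℂ) * Complex.I * ((a k : ℂ) *
        Complex.exp (2 * (Real.pi : ℂ) * Complex.I * (k : ℂ) * w))) w := by
    intro k w _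
    have h1 : HasDerivAt (fun w : ℂ => 2 * (Real.pi : ℂ) * Complex.I * (k : ℂ) * w)
        (2 * (Real.pi : ℂ) * Complex.I * (k : ℂ)) w := by
      simpa using (hasDerivAt_id w).const_mul (2 * (Real.pi : ℂ) * Complex.I * (k : ℂ))
    have h2 := (h1.cexp).const_mul ((a k : ℂ) / (k : ℂ))
    refine h2.congr_deriv ?_
    rcases Nat.eq_zero_or_pos k with rfl | hk
    · simp [h0]
    · have : (k : ℂ) ≠ 0 := by exact_mod_cast hk.ne'
      field_simp
  have hsz : Summable (fun k : ℕ => (a k : ℂ) / (k : ℂ) *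
      Complex.exp (2 * (Real.pi : ℂ) * Complex.I * (k : ℂ) * z)) := by
    refine Summable.of_norm_bounded (hs z hz).norm (fun k => ?_)
    rw [norm_mul, norm_mul, norm_div]
    gcongr
    rcases Nat.eq_zero_or_pos k with rfl | hk
    · simp
    · apply div_le_self (norm_nonneg _)
      rw [Complex.norm_natCast]
      exact_mod_cast hk
  have h3 := hasDerivAt_tsum_of_isPreconnected hsum hto htc.isPreconnected hd hbd hzt hsz hzt
  refine h3.congr_deriv ?_
  rw [tsum_mul_left]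
  rfl

/-- `f` transforms like a form of weight two on `Γ₀(N)`, and `Im(τ) |f(τ)|` is bounded. -/
structure IsForm (N : ℕ) (a : ℕ → ℤ) : Prop where
  zero : a 0 = 0
  summable : ∀ τ : ℂ, 0 < τ.im → Summable (fun k : ℕ => (a k : ℂ) *
    Complex.exp (2 * (Real.pi : ℂ) * Complex.I * (k : ℂ) * τ))
  modular : ∀ τ : ℂ, 0 < τ.im → ∀ p q r s : ℤ, p * s - q * r = 1 → (N : ℤ) ∣ r →
    fser a (((p : ℂ) * τ + (q : ℂ)) / ((r : ℂ) * τ + (s : ℂ))) =
      ((r : ℂ) * τ + (s : ℂ)) ^ 2 * fser a τ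
  bounded : ∃ B : ℝ, ∀ τ : ℂ, 0 < τ.im → τ.im * ‖fser a τ‖ ≤ B

/-- The action of a matrix with real entries. -/
noncomputable def mob (p q r s : ℝ) (τ : ℂ) : ℂ := ((p : ℂ) * τ + (q : ℂ)) / ((r : ℂ) * τ + (s : ℂ))

lemma den_ne {p q r s : ℝ} (h : p * s - q * r = 1) {τ : ℂ} (hτ : 0 < τ.im) :
    (r : ℂ) * τ + (s : ℂ) ≠ 0 := by
  intro h0
  have him := congrArg Complex.im h0
  have hre := congrArg Complex.re h0
  simp at him hre
  rcases him with h1 | h1
  · rw [h1] at hre h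
    simp at hre
    rw [hre] at h
    simp at h
  · exact hτ.ne' h1

lemma im_mob {p q r s : ℝ} (h : p * s - q * r = 1) {τ : ℂ} (hτ : 0 < τ.im) :
    (mob p q r s τ).im = τ.im / ‖(r : ℂ) * τ + (s : ℂ)‖ ^ 2 := by
  unfold mob
  rw [Complex.div_im, ← Complex.normSq_eq_norm_sq, ← sub_div]
  congr 1
  simp
  linear_combination τ.im * h

lemma im_mob_pos {p q r s : ℝ} (h : p * s - q * r = 1) {τ : ℂ} (hτ : 0 < τ.im) :
    0 < (mob p q r s τ).im := by
  rw [im_mob h hτ]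
  have := norm_pos_iff.2 (den_ne h hτ)
  positivity

lemma hasDerivAt_mob {p q r s : ℝ} (h : p * s - q * r = 1) {τ : ℂ} (hτ : 0 < τ.im) :
    HasDerivAt (mob p q r s) (1 / ((r : ℂ) * τ + (s : ℂ)) ^ 2) τ := by
  have h1 : HasDerivAt (fun τ : ℂ => (p : ℂ) * τ + (q : ℂ)) (p : ℂ) τ := by
    simpa using ((hasDerivAt_id τ).const_mul (p : ℂ)).add_const (q : ℂ)
  have h2 : HasDerivAt (fun τ : ℂ => (r : ℂ) * τ + (s : ℂ)) (r : ℂ) τ := by
    simpa using ((hasDerivAt_id τ).const_mul (r : ℂ)).add_const (s : ℂ)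
  refine (h1.div h2 (den_ne h hτ)).congr_deriv ?_
  have h3 : ((p : ℂ) * s - q * r) = 1 := by exact_mod_cast congrArg (fun x : ℝ => (x : ℂ)) h
  congr 1
  linear_combination h3

/-- The derivative of `F(g z)` for a real matrix `g`. -/
lemma hasDerivAt_comp {N : ℕ} (ha : IsForm N a) {p q r s : ℝ} (h : p * s - q * r = 1) {τ : ℂ}
    (hτ : 0 < τ.im) : HasDerivAt (fun z => Fser a (mob p q r s z))
      (2 * (Real.pi : ℂ) * Complex.I * fser a (mob p q r s τ) *
        (1 / ((r : ℂ) * τ + (s : ℂ)) ^ 2)) τ :=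
  (hasDerivAt_Fser ha.zero ha.summable (im_mob_pos h hτ)).comp τ (hasDerivAt_mob h hτ)

/-- For each real matrix `g` the function `F(g (z + t)) - F(g z)` tends to zero for
`Im(z) → ∞`. -/
lemma horo {N : ℕ} (ha : IsForm N a) {p q r s : ℝ} (h : p * s - q * r = 1) {B : ℝ}
    (hB : ∀ τ : ℂ, 0 < τ.im → τ.im * ‖fser a τ‖ ≤ B) (t : ℝ) {y : ℝ} (hy : 0 < y) :
    ‖Fser a (mob p q r s (y * Complex.I + t)) - Fser a (mob p q r s (y * Complex.I))‖ ≤
      2 * Real.pi * B / y * |t| := by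
  set u : Set ℂ := {w : ℂ | y ≤ w.im} with hu
  have huc : Convex ℝ u := convex_halfSpace_im_ge y
  have h1 := huc.norm_image_sub_le_of_norm_hasDerivWithin_le
    (f := fun z => Fser a (mob p q r s z))
    (f' := fun τ => 2 * (Real.pi : ℂ) * Complex.I * fser a (mob p q r s τ) *
        (1 / ((r : ℂ) * τ + (s : ℂ)) ^ 2)) (C := 2 * Real.pi * B / y)
    (fun w hw => (hasDerivAt_comp ha h (hy.trans_le hw)).hasDerivWithinAt)
    (fun w hw => ?_) (x := y * Complex.I) (y := y * Complex.I + t)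
    (by change y ≤ ((y : ℂ) * Complex.I).im; simp)
    (by change y ≤ ((y : ℂ) * Complex.I + t).im; simp)
  · refine h1.trans (le_of_eq ?_)
    rw [add_sub_cancel_left, Complex.norm_real, Real.norm_eq_abs]
  · have hw0 : 0 < w.im := hy.trans_le hw
    have hw1 : y ≤ w.im := hw
    have h2 := hB _ (im_mob_pos h hw0)
    rw [im_mob h hw0] at h2
    have h3 := norm_pos_iff.2 (den_ne h hw0)
    rw [norm_mul, norm_mul, norm_div, norm_pow, norm_one]
    have e1 : ‖2 * (Real.pi : ℂ) * Complex.I‖ = 2 * Real.pi := by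
      rw [norm_mul, norm_mul, Complex.norm_I, Complex.norm_real, Real.norm_eq_abs,
        abs_of_pos Real.pi_pos]
      simp
    rw [e1]
    have hB0 : 0 ≤ B := by
      refine le_trans ?_ h2
      positivity
    have h4 : ‖fser a (mob p q r s w)‖ * (1 / ‖(r : ℂ) * w + (s : ℂ)‖ ^ 2) ≤ B / w.im := by
      rw [le_div_iff₀ hw0]
      calc ‖fser a (mob p q r s w)‖ * (1 / ‖(r : ℂ) * w + (s : ℂ)‖ ^ 2) * w.im
          = w.im / ‖(r : ℂ) * w + (s : ℂ)‖ ^ 2 * ‖fser a (mob p q r s w)‖ := by ring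
        _ ≤ B := h2
    calc 2 * Real.pi * ‖fser a (mob p q r s w)‖ * (1 / ‖(r : ℂ) * w + (s : ℂ)‖ ^ 2)
        = 2 * Real.pi * (‖fser a (mob p q r s w)‖ * (1 / ‖(r : ℂ) * w + (s : ℂ)‖ ^ 2)) := by ring
      _ ≤ 2 * Real.pi * (B / w.im) := by gcongr
      _ ≤ 2 * Real.pi * (B / y) := by gcongr
      _ = 2 * Real.pi * B / y := by ring

end Pool.Agent.TH133.SH
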