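import Pool.Agent.TH133.SH.Group

/-!
# Logarithmic growth of homomorphisms on `Γ₀(N)`
-/

open Matrix Matrix.SpecialLinearGroup MatrixGroups ModularGroup

namespace Pool.Agent.TH133.SH

variable {N : ℕ} {φ : SL(2, ℤ) → ℝ}

lemma IsCuspHom.one (h : IsCuspHom N φ) : φ 1 = 0 :=
  h.parabolic 1 (by unfold InG; simp) (by simp)

lemma inG_one : InG N 1 := by unfold InG; simp

lemma IsCuspHom.zero_of_lower (h : IsCuspHom N φ) {g : SL(2, ℤ)} (hg : g 1 0 = 0) : φ g = 0 := by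
  apply h.parabolic g (by unfold InG; rw [hg]; exact dvd_zero _)
  have h1 := det_eq g
  rw [hg, mul_zero, sub_zero] at h1
  rcases Int.eq_one_or_neg_one_of_mul_eq_one h1 with h2 | h2
  · rw [h2, one_mul] at h1
    rw [h2, h1]
    norm_num
  · rw [h2] at h1
    have : g 1 1 = -1 := by linarith
    rw [h2, this]
    norm_num

/-- The value `φ` on the coset of `g` is bounded by `X`. -/
def Q (N : ℕ) (φ : SL(2, ℤ) → ℝ) (g : SL(2, ℤ)) (X : ℝ) : Prop :=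
  ∃ r : SL(2, ℤ), Small N r ∧ InG N (g * r⁻¹) ∧ |φ (g * r⁻¹)| ≤ X

lemma Q.mono {g : SL(2, ℤ)} {X Y : ℝ} (h : Q N φ g X) (hXY : X ≤ Y) : Q N φ g Y := by
  obtain ⟨r, h1, h2, h3⟩ := h
  exact ⟨r, h1, h2, h3.trans hXY⟩

section Main

variable {B : ℝ}

lemma Q.step (hN : 2 ≤ N) (h : IsCuspHom N φ)
    (hB : ∀ γ : SL(2, ℤ), InG N γ → |γ 1 0| ≤ (N : ℤ) ^ 2 → |φ γ| ≤ B) (X : SL(2, ℤ))
    (hX : ∀ r : SL(2, ℤ), Small N r → |(r * X) 1 0| ≤ N ∧ |(r * X) 1 1| ≤ N) {g : SL(2, ℤ)} {Y : ℝ}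
    (hg : Q N φ g Y) : Q N φ (g * X) (Y + B) := by
  obtain ⟨r, h1, h2, h3⟩ := hg
  obtain ⟨r', h4, h5⟩ := exists_small hN (r * X)
  have e1 : g * X * r'⁻¹ = (g * r⁻¹) * (r * X * r'⁻¹) := by group
  refine ⟨r', h4, by rw [e1]; exact h2.mul h5, ?_⟩
  rw [e1, h.map_mul _ _ h2 h5]
  refine (abs_add_le _ _).trans (add_le_add h3 (hB _ h5 ?_))
  rw [mul10, inv00, inv10]
  have h6 := hX r h1
  have h7 := h4
  unfold Small at h7
  set x := (r * X) 1 0
  set y := (r * X) 1 1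
  set u := r' 1 0
  set v := r' 1 1
  have hN0 : (0 : ℤ) ≤ N := Int.natCast_nonneg N
  calc |x * v + y * -u| ≤ |x * v| + |y * -u| := abs_add_le _ _
    _ = |x| * |v| + |y| * |u| := by rw [abs_mul, abs_mul, abs_neg]
    _ ≤ N * |v| + N * |u| := by
        gcongr
        · exact h6.1
        · exact h6.2
    _ ≤ (N : ℤ) ^ 2 := by nlinarith [h7.1, h7.2, abs_nonneg u, abs_nonneg v]

lemma stepT_aux {r : SL(2, ℤ)} (hr : Small N r) : |(r * T) 1 0| ≤ N ∧ |(r * T) 1 1| ≤ N := by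
  have h0 := T_pow 1
  rw [zpow_one] at h0
  rw [mul10, mul11, h0.1, h0.2.1, h0.2.2.1, h0.2.2.2]
  unfold Small at hr
  have h1 := abs_add_le (r 1 0) (r 1 1)
  constructor
  · rw [mul_one, mul_zero, add_zero]
    have := abs_nonneg (r 1 0)
    linarith [hr.1]
  · rw [mul_one, mul_one]
    linarith [hr.1, hr.2]

lemma stepS_aux {r : SL(2, ℤ)} (hr : Small N r) : |(r * S⁻¹) 1 0| ≤ N ∧ |(r * S⁻¹) 1 1| ≤ N := by
  have h0 := S_ent
  rw [mul10, mul11, inv00, inv10, inv01, inv11, h0.1, h0.2.1, h0.2.2.1, h0.2.2.2]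
  unfold Small at hr
  have h1 := abs_nonneg (r 1 0)
  have h2 := abs_nonneg (r 1 1)
  constructor
  · rw [mul_zero, zero_add, mul_neg, mul_one, abs_neg]
    linarith [hr.2]
  · rw [neg_neg, mul_one, mul_zero, add_zero]
    linarith [hr.1]

lemma Q.stepTN (h : IsCuspHom N φ) {g : SL(2, ℤ)} {X : ℝ} (hg : Q N φ g X) (q : ℤ) :
    Q N φ (g * T ^ ((N : ℤ) * q)) X := by
  obtain ⟨r, h1, h2, h3⟩ := hg
  set k : ℤ := (N : ℤ) * q with hk
  have e1 : g * T ^ k * r⁻¹ = (g * T ^ k * g⁻¹) * (g * r⁻¹) := by group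
  have ht := T_pow k
  have e00 : (g * T ^ k * g⁻¹) 0 0 = 1 - g 0 0 * g 1 0 * k := by
    rw [mul00, mul00, mul01, inv00, inv10, ht.1, ht.2.1, ht.2.2.1, ht.2.2.2]
    have := det_eq g
    linear_combination this
  have e11 : (g * T ^ k * g⁻¹) 1 1 = 1 + g 0 0 * g 1 0 * k := by
    rw [mul11, mul10, mul11, inv01, inv11, ht.1, ht.2.1, ht.2.2.1, ht.2.2.2]
    have := det_eq g
    linear_combination this
  have e10 : (g * T ^ k * g⁻¹) 1 0 = - (g 1 0 ^ 2 * k) := by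
    rw [mul10, mul10, mul11, inv00, inv10, ht.1, ht.2.1, ht.2.2.1, ht.2.2.2]
    ring
  have h4 : InG N (g * T ^ k * g⁻¹) := by
    unfold InG
    rw [e10, hk]
    exact ⟨- (g 1 0 ^ 2 * q), by ring⟩
  refine ⟨r, h1, by rw [e1]; exact h4.mul h2, ?_⟩
  rw [e1, h.map_mul _ _ h4 h2, h.parabolic _ h4 (by rw [e00, e11]; ring), zero_add]
  exact h3

lemma Q.stepTk (hN : 2 ≤ N) (h : IsCuspHom N φ)
    (hB : ∀ γ : SL(2, ℤ), InG N γ → |γ 1 0| ≤ (N : ℤ) ^ 2 → |φ γ| ≤ B) {g : SL(2, ℤ)} {X : ℝ}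
    (hg : Q N φ g X) (k : ℕ) : Q N φ (g * T ^ k) (X + k * B) := by
  induction k with
  | zero => simpa using hg
  | succ k ih =>
    have h1 := Q.step hN h hB T (fun r hr => stepT_aux hr) ih
    rw [pow_succ, ← mul_assoc]
    refine h1.mono (le_of_eq ?_)
    push_cast
    ring

lemma nonneg_B (h : IsCuspHom N φ)
    (hB : ∀ γ : SL(2, ℤ), InG N γ → |γ 1 0| ≤ (N : ℤ) ^ 2 → |φ γ| ≤ B) : 0 ≤ B := by
  have := hB 1 inG_one (by simp)
  exact (abs_nonneg _).trans this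

lemma Q.stepTint (hN : 2 ≤ N) (h : IsCuspHom N φ)
    (hB : ∀ γ : SL(2, ℤ), InG N γ → |γ 1 0| ≤ (N : ℤ) ^ 2 → |φ γ| ≤ B) {g : SL(2, ℤ)} {X : ℝ}
    (hg : Q N φ g X) (k : ℤ) : Q N φ (g * T ^ k) (X + (N - 1) * B) := by
  have hN0 : (0 : ℤ) < N := by exact_mod_cast (by omega : 0 < N)
  obtain ⟨m, hm⟩ := Int.eq_ofNat_of_zero_le (Int.emod_nonneg k hN0.ne')
  have hm' : m < N := by
    have := Int.emod_lt_of_pos k hN0
    omega
  have h1 := (Q.stepTk hN h hB hg m).stepTN h (k / N)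
  have e1 : T ^ k = T ^ m * T ^ ((N : ℤ) * (k / N)) := by
    rw [← zpow_natCast T m, ← zpow_add]
    congr 1
    have := Int.emod_add_mul_ediv k N
    omega
  rw [e1, ← mul_assoc]
  refine h1.mono ?_
  have hB0 := nonneg_B h hB
  have h2 : (m : ℝ) ≤ N - 1 := by
    have : (m : ℝ) + 1 ≤ N := by exact_mod_cast hm'
    linarith
  nlinarith

lemma exists_near (a c : ℤ) (hc : c ≠ 0) : ∃ k : ℤ, 2 * |a + k * c| ≤ |c| := by
  have h1 := Int.emod_nonneg a hc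
  have h2 := Int.emod_lt_abs a hc
  have h3 := Int.emod_add_mul_ediv a c
  rcases le_or_gt (2 * (a % c)) |c| with h | h
  · refine ⟨- (a / c), ?_⟩
    have : a + -(a / c) * c = a % c := by linarith [mul_comm c (a / c)]
    rw [this, abs_of_nonneg h1]
    exact h
  · refine ⟨- (a / c) - c.sign, ?_⟩
    have h4 : c.sign * c = |c| := by
      rw [mul_comm]
      exact Int.mul_sign_self c |>.trans (Int.abs_eq_natAbs c).symm
    have : a + (-(a / c) - c.sign) * c = a % c - |c| := by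
      rw [sub_mul, h4]
      linarith [mul_comm c (a / c)]
    rw [this, abs_of_nonpos (by linarith)]
    linarith

lemma Q_all (hN : 2 ≤ N) (h : IsCuspHom N φ)
    (hB : ∀ γ : SL(2, ℤ), InG N γ → |γ 1 0| ≤ (N : ℤ) ^ 2 → |φ γ| ≤ B) (n : ℕ) :
    ∀ g : SL(2, ℤ), |g 1 0| < 2 ^ n → Q N φ g (n * (N * B)) := by
  have hB0 := nonneg_B h hB
  have hs1 : Small N (1 : SL(2, ℤ)) := by
    constructor
    · simp
    · simp
      exact_mod_cast hN
  have h0 : ∀ g : SL(2, ℤ), g 1 0 = 0 → Q N φ g 0 := fun g hg => by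
    refine ⟨1, hs1, ?_, ?_⟩
    · rw [inv_one, mul_one]
      unfold InG
      rw [hg]
      exact dvd_zero _
    · rw [inv_one, mul_one, h.zero_of_lower hg, abs_zero]
  induction n with
  | zero =>
    intro g hg
    rw [pow_zero] at hg
    refine (h0 g (Int.abs_lt_one_iff.1 hg)).mono (by simp)
  | succ n ih =>
    intro g hg
    by_cases hc : g 1 0 = 0
    · exact (h0 g hc).mono (by positivity)
    obtain ⟨k, hk⟩ := exists_near (g 1 1) (g 1 0) hc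
    have ht := T_pow k
    have hS := S_ent
    have e1 : (g * T ^ k * S) 1 0 = g 1 1 + k * g 1 0 := by
      rw [mul10, mul10, mul11, ht.1, ht.2.1, ht.2.2.1, ht.2.2.2, hS.1, hS.2.2.1]
      ring
    have h1 : |(g * T ^ k * S) 1 0| < 2 ^ n := by
      rw [e1]
      rw [pow_succ] at hg
      linarith
    have h2 := Q.stepTint hN h hB
      (Q.step hN h hB S⁻¹ (fun r hr => stepS_aux hr) (ih _ h1)) (-k)
    have e2 : g * T ^ k * S * S⁻¹ * T ^ (-k) = g := by group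
    rw [e2] at h2
    refine h2.mono (le_of_eq ?_)
    push_cast
    ring

/-- **Logarithmic growth.** -/
theorem log_growth (hN : 2 ≤ N) (h : IsCuspHom N φ)
    (hB : ∀ γ : SL(2, ℤ), InG N γ → |γ 1 0| ≤ (N : ℤ) ^ 2 → |φ γ| ≤ B) {γ : SL(2, ℤ)}
    (hγ : InG N γ) (n : ℕ) (hn : |γ 1 0| < 2 ^ n) : |φ γ| ≤ n * (N * B) + B := by
  obtain ⟨r, h1, h2, h3⟩ := Q_all hN h hB n γ hn
  have e1 : γ = (γ * r⁻¹) * r := by group
  have h4 : InG N r := by
    have : r = (γ * r⁻¹)⁻¹ * γ := by group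
    rw [this]
    exact h2.inv.mul hγ
  rw [e1, h.map_mul _ _ h2 h4]
  refine (abs_add_le _ _).trans (add_le_add h3 (hB r h4 ?_))
  have h5 := h1.1
  have h6 := abs_nonneg (r 1 0)
  have h7 : (2 : ℤ) ≤ N := by exact_mod_cast hN
  nlinarith

end Main

end Pool.Agent.TH133.SH
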