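import Pool.Agent.TH133.SH.Bound

/-!
# From all entries to the lower left entry, and level one
-/

open Matrix Matrix.SpecialLinearGroup MatrixGroups ModularGroup

namespace Pool.Agent.TH133.SH

variable {N : ℕ} {φ : SL(2, ℤ) → ℝ} {B : ℝ}

lemma inG_T (k : ℤ) : InG N (T ^ k) := by
  unfold InG
  rw [(T_pow k).2.2.1]
  exact dvd_zero _

lemma extend (hN : 1 ≤ N) (h : IsCuspHom N φ)
    (hB : ∀ γ : SL(2, ℤ), InG N γ → Bounded ((N : ℤ) ^ 2) γ → |φ γ| ≤ B) :
    ∀ γ : SL(2, ℤ), InG N γ → |γ 1 0| ≤ (N : ℤ) ^ 2 → |φ γ| ≤ B := by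
  intro γ hγ hc
  have hN1 : (1 : ℤ) ≤ N := by exact_mod_cast hN
  have hN2 : (1 : ℤ) ≤ (N : ℤ) ^ 2 := by nlinarith
  by_cases h0 : γ 1 0 = 0
  · rw [h.zero_of_lower h0, abs_zero]
    refine (abs_nonneg (φ 1)).trans (hB 1 inG_one ?_)
    intro i j
    fin_cases i <;> fin_cases j <;> simp <;> nlinarith
  obtain ⟨k, hk⟩ := exists_near (γ 0 0) (γ 1 0) h0
  obtain ⟨l, hl⟩ := exists_near (γ 1 1) (γ 1 0) h0
  have htk := T_pow k
  have htl := T_pow l
  set δ := T ^ k * γ * T ^ l with hδ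
  have e10 : δ 1 0 = γ 1 0 := by
    rw [hδ, mul10, mul10, mul11, htk.2.2.1, htk.2.2.2, htl.1, htl.2.2.1]
    ring
  have e00 : δ 0 0 = γ 0 0 + k * γ 1 0 := by
    rw [hδ, mul00, mul00, mul01, htk.1, htk.2.1, htl.1, htl.2.2.1]
    ring
  have e11 : δ 1 1 = γ 1 1 + l * γ 1 0 := by
    rw [hδ, mul11, mul10, mul11, htk.2.2.1, htk.2.2.2, htl.2.1, htl.2.2.2]
    ring
  have hdet := det_eq δ
  have hδG : InG N δ := ((inG_T k).mul hγ).mul (inG_T l)
  have hφ : φ δ = φ γ := by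
    rw [hδ, h.map_mul _ _ ((inG_T k).mul hγ) (inG_T l), h.map_mul _ _ (inG_T k) hγ,
      h.zero_of_lower htk.2.2.1, h.zero_of_lower htl.2.2.1]
    ring
  rw [← hφ]
  apply hB δ hδG
  rw [← e00] at hk
  rw [← e11] at hl
  rw [← e10] at hk hl hc h0
  set c := |δ 1 0| with hcdef
  have hc1 : 1 ≤ c := Int.one_le_abs h0
  have h00 : |δ 0 0| ≤ c := by have := abs_nonneg (δ 0 0); linarith
  have h11 : |δ 1 1| ≤ c := by have := abs_nonneg (δ 1 1); linarith
  have h01 : |δ 0 1| ≤ c := by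
    by_contra hcon
    push Not at hcon
    have h1 : |δ 0 1| * c = |δ 0 0 * δ 1 1 - 1| := by
      rw [hcdef, ← abs_mul]
      congr 1
      linarith
    have h2 : |δ 0 0 * δ 1 1 - 1| ≤ |δ 0 0| * |δ 1 1| + 1 := by
      calc |δ 0 0 * δ 1 1 - 1| ≤ |δ 0 0 * δ 1 1| + |(1 : ℤ)| := abs_sub _ _
        _ = |δ 0 0| * |δ 1 1| + 1 := by rw [abs_mul, abs_one]
    have h3 : 4 * (|δ 0 0| * |δ 1 1|) ≤ c * c := by
      have := abs_nonneg (δ 0 0)
      have := abs_nonneg (δ 1 1)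
      nlinarith
    nlinarith
  intro i j
  fin_cases i <;> fin_cases j
  · exact h00.trans hc
  · exact h01.trans hc
  · exact hc
  · exact h11.trans hc

/-- In level one there are no non-trivial such homomorphisms. -/
lemma level_one (h : IsCuspHom 1 φ) (g : SL(2, ℤ)) : φ g = 0 := by
  have hG : ∀ g : SL(2, ℤ), InG 1 g := fun g => by unfold InG; simp
  have hadd : ∀ g g' : SL(2, ℤ), φ (g * g') = φ g + φ g' := fun g g' =>
    h.map_mul _ _ (hG g) (hG g')
  have hS : φ S = 0 := by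
    have h1 : φ (S * S) = 0 := by
      apply h.parabolic _ (hG _)
      have hS := S_ent
      rw [mul00, mul11, hS.1, hS.2.1, hS.2.2.1, hS.2.2.2]
      norm_num
    rw [hadd] at h1
    linarith
  have hone := h.one
  have hSi : φ S⁻¹ = 0 := by
    have h1 := hadd S S⁻¹
    rw [mul_inv_cancel, hone, hS] at h1
    linarith
  have hT : ∀ k : ℤ, φ (T ^ k) = 0 := fun k => h.zero_of_lower (T_pow k).2.2.1
  have key : ∀ n : ℕ, ∀ g : SL(2, ℤ), |g 1 0| < 2 ^ n → φ g = 0 := by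
    intro n
    induction n with
    | zero =>
      intro g hg
      rw [pow_zero] at hg
      exact h.zero_of_lower (Int.abs_lt_one_iff.1 hg)
    | succ n ih =>
      intro g hg
      by_cases hc : g 1 0 = 0
      · exact h.zero_of_lower hc
      obtain ⟨k, hk⟩ := exists_near (g 1 1) (g 1 0) hc
      have ht := T_pow k
      have hS' := S_ent
      have e1 : (g * T ^ k * S) 1 0 = g 1 1 + k * g 1 0 := by
        rw [mul10, mul10, mul11, ht.1, ht.2.1, ht.2.2.1, ht.2.2.2, hS'.1, hS'.2.2.1]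
        ring
      have h1 : |(g * T ^ k * S) 1 0| < 2 ^ n := by
        rw [e1]
        rw [pow_succ] at hg
        linarith
      have h2 := ih _ h1
      rw [hadd, hadd, hT, hS] at h2
      linarith
  exact key (Int.natAbs (g 1 0)) g (by
    rw [Int.abs_eq_natAbs]
    exact_mod_cast Nat.lt_two_pow_self)

end Pool.Agent.TH133.SH
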