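import Mathlib.NumberTheory.Primorial
import Mathlib.Tactic

/-!
# Integers prime to `N` in progressions
-/

namespace Pool.Agent.TH133.SH

open Finset

/-- Among `primorial (s + 1) * (s + 1)` consecutive terms of a progression `a + k b`, with `a` and
`b` coprime and `s` the number of prime factors of `N`, there is one prime to `N`. -/
lemma exists_coprime_term {N : ℕ} (hN : N ≠ 0) (a b : ℤ) (hab : IsCoprime a b) :
    ∃ k : ℕ, k < primorial (N.primeFactors.card + 1) * (N.primeFactors.card + 1) ∧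
      IsCoprime (a + k * b) (N : ℤ) := by
  classical
  set s := N.primeFactors.card with hs
  set D := primorial (s + 1) with hD
  have hDpos : 0 < D := primorial_pos _
  -- the small primes
  set c : ℕ := ∏ p ∈ (N.primeFactors.filter (fun p => p ≤ s + 1)).filter
    (fun p : ℕ => ¬ (p : ℤ) ∣ a), p with hc
  have hcs : ∀ p ∈ N.primeFactors, p ≤ s + 1 → ¬ (p : ℤ) ∣ a + c * b := by
    intro p hp hps hdiv
    have hpp := Nat.prime_of_mem_primeFactors hp
    have hp' : Prime (p : ℤ) := Nat.prime_iff_prime_int.1 hpp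
    by_cases hpa : (p : ℤ) ∣ a
    · have h1 : (p : ℤ) ∣ c * b := by
        have := dvd_sub hdiv hpa
        rwa [add_sub_cancel_left] at this
      rcases hp'.dvd_or_dvd h1 with h2 | h2
      · have h3 : p ∣ c := by exact_mod_cast h2
        rw [hc, hpp.prime.dvd_finsetProd_iff] at h3
        obtain ⟨q, hq, hpq⟩ := h3
        rw [mem_filter, mem_filter] at hq
        have hqp := Nat.prime_of_mem_primeFactors hq.1.1
        rw [Nat.prime_dvd_prime_iff_eq hpp hqp] at hpq
        exact hq.2 (hpq ▸ hpa)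
      · exact hp'.not_isUnit (hab.isUnit_of_dvd' hpa h2)
    · have h1 : p ∣ c := dvd_prod_of_mem _ (by
        rw [mem_filter, mem_filter]
        exact ⟨⟨hp, hps⟩, hpa⟩)
      have h2 : (p : ℤ) ∣ c * b := Dvd.dvd.mul_right (by exact_mod_cast h1) b
      have := dvd_sub hdiv h2
      rw [add_sub_cancel_right] at this
      exact hpa this
  set c₀ := c % D with hc₀
  have hc₀lt : c₀ < D := Nat.mod_lt _ hDpos
  -- the bad indices for a large prime
  set bad : ℕ → Finset ℕ := fun p => (range (s + 1)).filter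
    (fun j => (p : ℤ) ∣ a + ((c₀ + D * j : ℕ) : ℤ) * b) with hbad
  set big := N.primeFactors.filter (fun p => s + 1 < p) with hbig
  have hcard : ∀ p ∈ big, (bad p).card ≤ 1 := by
    intro p hp
    rw [hbig, mem_filter] at hp
    obtain ⟨hpN, hps⟩ := hp
    have hpp := Nat.prime_of_mem_primeFactors hpN
    have hp' : Prime (p : ℤ) := Nat.prime_iff_prime_int.1 hpp
    rw [card_le_one]
    intro i hi j hj
    rw [hbad, mem_filter, mem_range] at hi hj
    have h1 : (p : ℤ) ∣ (D : ℤ) * b * ((i : ℤ) - j) := by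
      have := dvd_sub hi.2 hj.2
      have e : a + ((c₀ + D * i : ℕ) : ℤ) * b - (a + ((c₀ + D * j : ℕ) : ℤ) * b) =
          (D : ℤ) * b * ((i : ℤ) - j) := by
        push_cast
        ring
      rwa [e] at this
    have hpb : ¬ (p : ℤ) ∣ b := by
      intro h2
      have h3 : (p : ℤ) ∣ a := by
        have := dvd_sub hi.2 (Dvd.dvd.mul_left h2 ((c₀ + D * i : ℕ) : ℤ))
        rwa [add_sub_cancel_right] at this
      exact hp'.not_isUnit (hab.isUnit_of_dvd' h3 h2)
    have hpD : ¬ (p : ℤ) ∣ (D : ℤ) := by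
      intro h2
      have h3 : p ∣ D := by exact_mod_cast h2
      rw [hD, primorial, hpp.prime.dvd_finsetProd_iff] at h3
      obtain ⟨q, hq, hpq⟩ := h3
      rw [mem_filter, mem_range] at hq
      rw [Nat.prime_dvd_prime_iff_eq hpp hq.2] at hpq
      omega
    rcases hp'.dvd_or_dvd h1 with h2 | h2
    · rcases hp'.dvd_or_dvd h2 with h3 | h3
      · exact absurd h3 hpD
      · exact absurd h3 hpb
    · have h3 : |(i : ℤ) - j| < p := by
        rw [abs_lt]
        constructor <;> omega
      have h4 := Int.eq_zero_of_abs_lt_dvd h2 h3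
      omega
  have hlt : (big.biUnion bad).card < (range (s + 1)).card := by
    rw [card_range]
    calc (big.biUnion bad).card ≤ ∑ p ∈ big, (bad p).card := card_biUnion_le
      _ ≤ ∑ p ∈ big, 1 := sum_le_sum hcard
      _ = big.card := by simp
      _ ≤ s := card_filter_le _ _
      _ < s + 1 := Nat.lt_succ_self s
  obtain ⟨j, hj, hjb⟩ := exists_mem_notMem_of_card_lt_card hlt
  refine ⟨c₀ + D * j, ?_, ?_⟩
  · rw [mem_range] at hj
    calc c₀ + D * j < D + D * j := by omega
      _ = D * (j + 1) := by ring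
      _ ≤ D * (s + 1) := Nat.mul_le_mul_left _ (by omega)
  · rw [Int.isCoprime_iff_gcd_eq_one]
    by_contra hne
    obtain ⟨p, hpp, hpd⟩ := Nat.exists_prime_and_dvd hne
    have h1 : (p : ℤ) ∣ a + ((c₀ + D * j : ℕ) : ℤ) * b :=
      (Int.natCast_dvd_natCast.2 hpd).trans (Int.gcd_dvd_left _ _)
    have h2 : p ∣ N := by
      have := (Int.natCast_dvd_natCast.2 hpd).trans (Int.gcd_dvd_right (a + ((c₀ + D * j : ℕ) : ℤ) * b) (N : ℤ))
      exact_mod_cast this
    have hpN : p ∈ N.primeFactors := by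
      rw [Nat.mem_primeFactors]
      exact ⟨hpp, h2, hN⟩
    by_cases hps : p ≤ s + 1
    · apply hcs p hpN hps
      have hpD : (p : ℤ) ∣ (D : ℤ) := by
        have : p ∣ D := by
          rw [hD, primorial]
          exact dvd_prod_of_mem _ (by rw [mem_filter, mem_range]; exact ⟨by omega, hpp⟩)
        exact_mod_cast this
      have h3 : (p : ℤ) ∣ (c : ℤ) - ((c₀ + D * j : ℕ) : ℤ) := by
        have e : (c : ℤ) - ((c₀ + D * j : ℕ) : ℤ) = D * ((c / D : ℕ) : ℤ) - D * j := by
          have := Nat.mod_add_div c D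
          rw [← hc₀] at this
          have h4 : (c : ℤ) = (c₀ : ℤ) + D * ((c / D : ℕ) : ℤ) := by exact_mod_cast this.symm
          push_cast at h4 ⊢
          linarith
        rw [e]
        exact dvd_sub (Dvd.dvd.mul_right hpD _) (Dvd.dvd.mul_right hpD _)
      have h4 := dvd_add h1 (Dvd.dvd.mul_right h3 b)
      have e : a + ((c₀ + D * j : ℕ) : ℤ) * b + ((c : ℤ) - ((c₀ + D * j : ℕ) : ℤ)) * b =
          a + c * b := by ring
      rwa [e] at h4
    · apply hjb
      rw [mem_biUnion]
      refine ⟨p, ?_, ?_⟩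
      · rw [hbig, mem_filter]
        exact ⟨hpN, by omega⟩
      · rw [hbad, mem_filter]
        exact ⟨hj, h1⟩

/-- The length of the progressions above is at most `4 * 8 ^ s`. -/
lemma gap_le (s : ℕ) : primorial (s + 1) * (s + 1) ≤ 4 * 8 ^ s := by
  have h1 : primorial (s + 1) ≤ 4 ^ (s + 1) := primorial_le_four_pow _
  have h2 : s + 1 ≤ 2 ^ s := Nat.lt_two_pow_self
  calc primorial (s + 1) * (s + 1) ≤ 4 ^ (s + 1) * 2 ^ s := Nat.mul_le_mul h1 h2
    _ = 4 * 8 ^ s := by
      rw [pow_succ, show (8 : ℕ) = 4 * 2 by norm_num, mul_pow]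
      ring

end Pool.Agent.TH133.SH
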