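import Pool.Agent.TH133.SH.Main
import Pool.Agent.TH133.SH.Gap

/-!
# Logarithmic growth from the matrices with small lower left entry
-/

open Matrix Matrix.SpecialLinearGroup MatrixGroups ModularGroup

namespace Pool.Agent.TH133.SH

variable {N : ℕ} {φ : SL(2, ℤ) → ℝ}

/-- The value of `φ` at the cusp `a / (N m)` is at most `Y`. -/
def V (N : ℕ) (φ : SL(2, ℤ) → ℝ) (a m : ℤ) (Y : ℝ) : Prop :=
  ∀ γ : SL(2, ℤ), γ 0 0 = a → γ 1 0 = N * m → |φ γ| ≤ Y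

lemma V.mono {a m : ℤ} {Y Z : ℝ} (hV : V N φ a m Y) (hYZ : Y ≤ Z) : V N φ a m Z :=
  fun γ h0 h1 => (hV γ h0 h1).trans hYZ

lemma V.step (h : IsCuspHom N φ) {M : ℤ} {X : ℝ}
    (hX : ∀ γ : SL(2, ℤ), InG N γ → |γ 1 0| ≤ N * M → |φ γ| ≤ X) {a m a' m' : ℤ} {Y : ℝ}
    (hc : IsCoprime a (N * m)) (hdet : |a * m' - a' * m| ≤ M) (hV : V N φ a m Y) :
    V N φ a' m' (Y + X) := by
  intro γ' h0 h1
  obtain ⟨x, y, hxy⟩ := hc
  set δ := mk a (-y) (N * m) x (by linear_combination hxy) with hδ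
  have hδG : InG N δ := ⟨m, rfl⟩
  have hγG : InG N γ' := ⟨m', h1⟩
  have hd := hV δ rfl rfl
  have h2 : (δ⁻¹ * γ') 1 0 = N * (a * m' - a' * m) := by
    rw [mul10, inv10, inv11, h0, h1]
    change -(N * m) * a' + a * (N * m') = _
    ring
  have h3 := hX (δ⁻¹ * γ') (hδG.inv.mul hγG) (by
    rw [h2, abs_mul, abs_of_nonneg (Int.natCast_nonneg N)]
    exact mul_le_mul_of_nonneg_left hdet (Int.natCast_nonneg N))
  have h4 : φ γ' = φ δ + φ (δ⁻¹ * γ') := by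
    rw [← h.map_mul δ (δ⁻¹ * γ') hδG (hδG.inv.mul hγG)]
    congr 1
    group
  rw [h4]
  exact (abs_add_le _ _).trans (add_le_add hd h3)

lemma V.parabolic (h : IsCuspHom N φ) {a m a₁ m₁ ε : ℤ} (hε : a * m₁ - a₁ * m = ε)
    (hε2 : ε ^ 2 = 1) (t : ℤ) {Y : ℝ} (hV : V N φ a m Y) :
    V N φ (a + t * N * a₁) (m + t * N * m₁) Y := by
  intro γ' h0 h1
  set P := mk (1 - ε * t * a₁ * N * m₁) (ε * t * a₁ ^ 2) (-(ε * t * N ^ 2 * m₁ ^ 2))
    (1 + ε * t * a₁ * N * m₁) (by ring) with hP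
  have hPG : InG N P := ⟨-(ε * t * N * m₁ ^ 2), by change -(ε * t * N ^ 2 * m₁ ^ 2) = _; ring⟩
  have hP0 : φ P = 0 := h.parabolic P hPG (by
    change (1 - ε * t * a₁ * N * m₁ + (1 + ε * t * a₁ * N * m₁)) ^ 2 = 4
    ring)
  have hγG : InG N γ' := ⟨_, h1⟩
  have e00 : (P * γ') 0 0 = a := by
    rw [mul00, h0, h1]
    change (1 - ε * t * a₁ * N * m₁) * _ + (ε * t * a₁ ^ 2) * _ = _
    linear_combination (-(ε * t * N * a₁)) * hε - (t * N * a₁) * hε2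
  have e10 : (P * γ') 1 0 = N * m := by
    rw [mul10, h0, h1]
    change -(ε * t * N ^ 2 * m₁ ^ 2) * _ + (1 + ε * t * a₁ * N * m₁) * _ = _
    linear_combination (-(ε * t * N ^ 2 * m₁)) * hε - (t * N ^ 2 * m₁) * hε2
  have h2 := hV _ e00 e10
  rwa [h.map_mul P γ' hPG hγG, hP0, zero_add] at h2

/-- The values of `φ` at the cusps which are neighbours of the vertex `(a, m)` are at most `Y`. -/
def W (N : ℕ) (φ : SL(2, ℤ) → ℝ) (a m : ℤ) (Y : ℝ) : Prop :=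
  ∀ a₂ m₂ : ℤ, a * m₂ - a₂ * m = 1 → IsCoprime a₂ (N : ℤ) → V N φ a₂ m₂ Y

lemma W.mono {a m : ℤ} {Y Z : ℝ} (hW : W N φ a m Y) (hYZ : Y ≤ Z) : W N φ a m Z :=
  fun a₂ m₂ h0 h1 => (hW a₂ m₂ h0 h1).mono hYZ

lemma cop {a₁ m₁ a₂ m₂ : ℤ} (hdet : a₁ * m₂ - a₂ * m₁ = 1) {k : ℤ}
    (hk : IsCoprime (a₂ + k * a₁) (N : ℤ)) : IsCoprime (a₂ + k * a₁) (N * (m₂ + k * m₁)) :=
  hk.mul_right ⟨-m₁, a₁, by linear_combination hdet⟩

section Main

variable {M J : ℤ} {X : ℝ}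

lemma link (h : IsCuspHom N φ) (hJ : J * J + 1 ≤ M) (hJ0 : 0 ≤ J)
    (hX : ∀ γ : SL(2, ℤ), InG N γ → |γ 1 0| ≤ N * M → |φ γ| ≤ X)
    (hgap : ∀ a b : ℤ, IsCoprime a b → ∃ k : ℕ, (k : ℤ) < J ∧ IsCoprime (a + k * b) (N : ℤ))
    (hX0 : 0 ≤ X) {a₁ m₁ a₂ m₂ : ℤ} (hdet : a₁ * m₂ - a₂ * m₁ = 1) (n : ℕ) :
    ∀ (k l : ℤ) (Y : ℝ), k ≤ l → l ≤ k + n → IsCoprime (a₂ + k * a₁) (N : ℤ) →
      IsCoprime (a₂ + l * a₁) (N : ℤ) → V N φ (a₂ + k * a₁) (m₂ + k * m₁) Y →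
      V N φ (a₂ + l * a₁) (m₂ + l * m₁) (Y + n * X) := by
  have hJM : J ≤ M := by nlinarith
  induction n with
  | zero =>
    intro k l Y hkl hlk _ _ hV
    obtain rfl : l = k := by push_cast at hlk; omega
    simpa using hV
  | succ n ih =>
    intro k l Y hkl hlk hk hl hV
    push_cast at hlk
    rcases eq_or_lt_of_le hkl with rfl | hlt
    · refine hV.mono ?_
      have : (0 : ℝ) ≤ ((n + 1 : ℕ) : ℝ) * X := by positivity
      linarith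
    have hab : IsCoprime (a₂ + (k + 1) * a₁) a₁ := by
      have h1 : IsCoprime a₂ a₁ := ⟨-m₁, m₂, by linear_combination hdet⟩
      exact h1.add_mul_right_left _
    obtain ⟨k'', hk'', hc''⟩ := hgap _ _ hab
    have hc' : IsCoprime (a₂ + (k + 1 + k'') * a₁) (N : ℤ) := by
      have e : a₂ + (k + 1 + k'') * a₁ = a₂ + (k + 1) * a₁ + k'' * a₁ := by ring
      rw [e]
      exact hc''
    have hk0 : (0 : ℤ) ≤ k'' := Int.natCast_nonneg _
    rcases le_or_gt (k + 1 + k'') l with hle | hgt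
    · have h1 : V N φ (a₂ + (k + 1 + k'') * a₁) (m₂ + (k + 1 + k'') * m₁) (Y + X) := by
        refine V.step h hX (cop hdet hk) ?_ hV
        have e : (a₂ + k * a₁) * (m₂ + (k + 1 + k'') * m₁) -
            (a₂ + (k + 1 + k'') * a₁) * (m₂ + k * m₁) = -(1 + k'') := by
          linear_combination (-(1 + (k'' : ℤ))) * hdet
        rw [e, abs_neg, abs_of_nonneg (by linarith)]
        linarith
      have h2 := ih (k + 1 + k'') l (Y + X) hle (by linarith) hc' hl h1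
      refine h2.mono ?_
      push_cast
      linarith
    · have h1 : V N φ (a₂ + l * a₁) (m₂ + l * m₁) (Y + X) := by
        refine V.step h hX (cop hdet hk) ?_ hV
        have e : (a₂ + k * a₁) * (m₂ + l * m₁) - (a₂ + l * a₁) * (m₂ + k * m₁) = -(l - k) := by
          linear_combination (-(l - k)) * hdet
        rw [e, abs_neg, abs_of_nonneg (by linarith)]
        linarith
      refine h1.mono ?_
      push_cast
      have : (0 : ℝ) ≤ (n : ℝ) * X := by positivity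
      linarith

lemma link_all (h : IsCuspHom N φ) (hN : 1 ≤ N) (hJ : J * J + 1 ≤ M) (hJ0 : 0 ≤ J)
    (hX : ∀ γ : SL(2, ℤ), InG N γ → |γ 1 0| ≤ N * M → |φ γ| ≤ X)
    (hgap : ∀ a b : ℤ, IsCoprime a b → ∃ k : ℕ, (k : ℤ) < J ∧ IsCoprime (a + k * b) (N : ℤ))
    (hX0 : 0 ≤ X) {a₁ m₁ a₂ m₂ : ℤ} (hdet : a₁ * m₂ - a₂ * m₁ = 1) {k l : ℤ} {Y : ℝ}
    (hk : IsCoprime (a₂ + k * a₁) (N : ℤ)) (hl : IsCoprime (a₂ + l * a₁) (N : ℤ))
    (hV : V N φ (a₂ + k * a₁) (m₂ + k * m₁) Y) :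
    V N φ (a₂ + l * a₁) (m₂ + l * m₁) (Y + N * X) := by
  have hN0 : (0 : ℤ) < N := by exact_mod_cast hN
  set t := (l - k) / N with ht
  set l' := k + (l - k) % N with hl'
  have e : l = l' + N * t := by
    have := Int.emod_add_mul_ediv (l - k) N
    rw [hl', ht]
    linarith
  have h1 := Int.emod_nonneg (l - k) hN0.ne'
  have h2 := Int.emod_lt_of_pos (l - k) hN0
  have hc' : IsCoprime (a₂ + l' * a₁) (N : ℤ) := by
    have e2 : a₂ + l' * a₁ = a₂ + l * a₁ + N * (-(t * a₁)) := by rw [e]; ring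
    rw [e2]
    exact hl.add_mul_left_left _
  have h3 := link h hJ hJ0 hX hgap hX0 hdet N k l' Y (by rw [hl']; linarith)
    (by rw [hl']; linarith) hk hc' hV
  have h4 := V.parabolic h (a₁ := a₁) (m₁ := m₁) (ε := -1)
    (show (a₂ + l' * a₁) * m₁ - a₁ * (m₂ + l' * m₁) = -1 by linear_combination -hdet)
    (by norm_num) t h3
  have e3 : a₂ + l' * a₁ + t * N * a₁ = a₂ + l * a₁ := by rw [e]; ring
  have e4 : m₂ + l' * m₁ + t * N * m₁ = m₂ + l * m₁ := by rw [e]; ring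
  rwa [e3, e4] at h4

lemma edge (h : IsCuspHom N φ) (hN : 1 ≤ N) (hJ : J * J + 1 ≤ M) (hJ0 : 0 ≤ J)
    (hX : ∀ γ : SL(2, ℤ), InG N γ → |γ 1 0| ≤ N * M → |φ γ| ≤ X)
    (hgap : ∀ a b : ℤ, IsCoprime a b → ∃ k : ℕ, (k : ℤ) < J ∧ IsCoprime (a + k * b) (N : ℤ))
    (hX0 : 0 ≤ X) {a₁ m₁ a₂ m₂ : ℤ} (hdet : a₁ * m₂ - a₂ * m₁ = 1) {Y : ℝ}
    (hW : W N φ a₁ m₁ Y) : W N φ a₂ m₂ (Y + X + N * X) := by
  intro a₃ m₃ h3 hc3
  obtain ⟨k, hk, hkc⟩ := hgap a₂ a₁ ⟨-m₁, m₂, by linear_combination hdet⟩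
  have hVk : V N φ (a₂ + k * a₁) (m₂ + k * m₁) Y := hW _ _ (by linear_combination hdet) hkc
  obtain ⟨l, hl, hlc⟩ := hgap (-a₁) a₂ ⟨-m₂, -m₁, by linear_combination hdet⟩
  have hk0 : (0 : ℤ) ≤ k := Int.natCast_nonneg _
  have hl0 : (0 : ℤ) ≤ l := Int.natCast_nonneg _
  have hVl : V N φ (-a₁ + l * a₂) (-m₁ + l * m₂) (Y + X) := by
    refine V.step h hX (cop hdet hkc) ?_ hVk
    have e : (a₂ + k * a₁) * (-m₁ + l * m₂) - (-a₁ + l * a₂) * (m₂ + k * m₁) = 1 + k * l := by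
      linear_combination (1 + (k : ℤ) * l) * hdet
    rw [e, abs_of_nonneg (by positivity)]
    nlinarith
  set l₃ := a₁ * m₃ - a₃ * m₁ with hl₃
  have e1 : -a₁ + l₃ * a₂ = a₃ := by
    rw [hl₃]
    linear_combination a₁ * h3 + a₃ * hdet
  have e2 : -m₁ + l₃ * m₂ = m₃ := by
    rw [hl₃]
    linear_combination m₁ * h3 + m₃ * hdet
  have h5 := link_all h hN hJ hJ0 hX hgap hX0 (a₁ := a₂) (m₁ := m₂) (a₂ := -a₁) (m₂ := -m₁)
    (by linear_combination hdet) (k := l) (l := l₃) hlc (by rw [e1]; exact hc3) hVl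
  rwa [e1, e2] at h5

lemma all_vertices (h : IsCuspHom N φ) (hN : 1 ≤ N) (hJ : J * J + 1 ≤ M) (hJ0 : 0 ≤ J)
    (hX : ∀ γ : SL(2, ℤ), InG N γ → |γ 1 0| ≤ N * M → |φ γ| ≤ X)
    (hgap : ∀ a b : ℤ, IsCoprime a b → ∃ k : ℕ, (k : ℤ) < J ∧ IsCoprime (a + k * b) (N : ℤ))
    (hX0 : 0 ≤ X) (n : ℕ) :
    ∀ a m : ℤ, IsCoprime a m → |m| < 2 ^ n → W N φ a m (X + n * (X + N * X)) := by
  have hN0 : (0 : ℤ) < N := by exact_mod_cast hN
  induction n with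
  | zero =>
    intro a m _ hm a₂ m₂ hdet _ γ _ h1
    rw [pow_zero, Int.abs_lt_one_iff] at hm
    rw [hm, mul_zero, sub_zero] at hdet
    have h2 : |m₂| = 1 := Int.isUnit_iff_abs_eq.1 (IsUnit.of_mul_eq_one a (by linarith))
    have h3 := hX γ ⟨m₂, h1⟩ (by
      rw [h1, abs_mul, h2, abs_of_pos hN0]
      have : 1 ≤ M := by nlinarith
      nlinarith)
    simpa using h3
  | succ n ih =>
    intro a m hc hm
    by_cases hm0 : m = 0
    · refine (ih a m hc (by rw [hm0, abs_zero]; positivity)).mono ?_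
      push_cast
      have : 0 ≤ X + N * X := by positivity
      linarith
    obtain ⟨x, y, hxy⟩ := hc
    obtain ⟨k, hk⟩ := exists_near (-x) m hm0
    have hdet : (y + k * a) * m - a * (-x + k * m) = 1 := by linear_combination hxy
    have h1 := ih (y + k * a) (-x + k * m) ⟨m, -a, by linear_combination hxy⟩ (by
      rw [pow_succ] at hm
      linarith)
    have h2 := edge h hN hJ hJ0 hX hgap hX0 hdet h1
    refine h2.mono ?_
    push_cast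
    linarith

lemma growth_aux (h : IsCuspHom N φ) (hN : 1 ≤ N) (hJ : J * J + 1 ≤ M) (hJ0 : 0 ≤ J)
    (hX : ∀ γ : SL(2, ℤ), InG N γ → |γ 1 0| ≤ N * M → |φ γ| ≤ X)
    (hgap : ∀ a b : ℤ, IsCoprime a b → ∃ k : ℕ, (k : ℤ) < J ∧ IsCoprime (a + k * b) (N : ℤ))
    (hX0 : 0 ≤ X) (n : ℕ) {γ : SL(2, ℤ)} {m : ℤ} (hm : γ 1 0 = N * m) (hm0 : m ≠ 0)
    (hlt : |m| < 2 ^ n) : |φ γ| ≤ X + n * (X + N * X) := by
  have hdet := det_eq γ
  rw [hm] at hdet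
  obtain ⟨k, hk⟩ := exists_near (-γ 1 1) m hm0
  set a := γ 0 0 with ha
  set b := γ 0 1 with hb
  set d := γ 1 1 with hd
  have hdet' : (-(N * b) + k * a) * m - a * (-d + k * m) = 1 := by linear_combination hdet
  have h1 := all_vertices h hN hJ hJ0 hX hgap hX0 n (-(N * b) + k * a) (-d + k * m)
    ⟨m, -a, by linear_combination hdet⟩ (by
      have := abs_nonneg m
      linarith)
  exact h1 a m hdet' ⟨d, -(b * m), by linear_combination hdet⟩ γ rfl hm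

end Main

/-- The bound for the lower left entries: `17 * 64 ^ ω(N) * N`. -/
def smallEntry (N : ℕ) : ℕ := 17 * 64 ^ N.primeFactors.card * N

/-- Logarithmic growth from the matrices with lower left entry at most `17 * 64 ^ ω(N) * N`. -/
lemma growth_small (h : IsCuspHom N φ) (hN : 1 ≤ N) {X : ℝ}
    (hX : ∀ γ : SL(2, ℤ), InG N γ → |γ 1 0| ≤ smallEntry N → |φ γ| ≤ X)
    {γ : SL(2, ℤ)} (hγ : InG N γ) (h0 : γ 1 0 ≠ 0) :
    |φ γ| ≤ 4 * X * N * (1 + Real.log |((γ 1 0 : ℤ) : ℝ)|) := by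
  have hN0 : (0 : ℤ) < N := by exact_mod_cast hN
  have hN1 : (1 : ℝ) ≤ N := by exact_mod_cast hN
  have hX0 : 0 ≤ X := by
    refine (abs_nonneg _).trans (hX 1 inG_one ?_)
    simp
  set s := N.primeFactors.card with hs
  set J : ℤ := 4 * 8 ^ s with hJdef
  set M : ℤ := 17 * 64 ^ s with hMdef
  have hJ0 : 0 ≤ J := by positivity
  have hJM : J * J + 1 ≤ M := by
    have h1 : (64 : ℤ) ^ s = 8 ^ s * 8 ^ s := by
      rw [← mul_pow]
      norm_num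
    have h2 : (1 : ℤ) ≤ 64 ^ s := one_le_pow₀ (by norm_num)
    rw [hMdef, hJdef]
    nlinarith
  have hgap : ∀ a b : ℤ, IsCoprime a b →
      ∃ k : ℕ, (k : ℤ) < J ∧ IsCoprime (a + k * b) (N : ℤ) := by
    intro a b hab
    obtain ⟨k, hk, hc⟩ := exists_coprime_term (by omega : N ≠ 0) a b hab
    refine ⟨k, ?_, hc⟩
    have h1 := hk.trans_le (gap_le s)
    rw [hJdef]
    exact_mod_cast h1
  have hX' : ∀ γ : SL(2, ℤ), InG N γ → |γ 1 0| ≤ N * M → |φ γ| ≤ X := by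
    intro γ h1 h2
    refine hX γ h1 (h2.trans (le_of_eq ?_))
    rw [smallEntry, hMdef, ← hs]
    push_cast
    ring
  obtain ⟨m, hm⟩ := id hγ
  have hm0 : m ≠ 0 := by
    rintro rfl
    exact h0 (by rw [hm, mul_zero])
  have h1 := growth_aux h hN hJM hJ0 hX' hgap hX0 (Nat.log 2 m.natAbs + 1) hm hm0 (by
    rw [Int.abs_eq_natAbs]
    exact_mod_cast Nat.lt_pow_succ_log_self (by norm_num) _)
  refine h1.trans ?_
  have hmc : (m.natAbs : ℝ) ≤ |((γ 1 0 : ℤ) : ℝ)| := by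
    have h2 : |m| ≤ |γ 1 0| := by
      rw [hm, abs_mul, abs_of_pos hN0]
      have := abs_nonneg m
      nlinarith
    rw [Nat.cast_natAbs, ← Int.cast_abs]
    exact_mod_cast h2
  have h2 : (Nat.log 2 m.natAbs : ℝ) ≤ 2 * Real.log |((γ 1 0 : ℤ) : ℝ)| := by
    have h3 : (2 : ℝ) ^ Nat.log 2 m.natAbs ≤ |((γ 1 0 : ℤ) : ℝ)| := by
      refine le_trans ?_ hmc
      exact_mod_cast Nat.pow_log_le_self 2 (Int.natAbs_ne_zero.2 hm0)
    have h6 := Real.log_le_log (by positivity) h3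
    rw [Real.log_pow] at h6
    have h7 : (0.5 : ℝ) ≤ Real.log 2 := by
      have := Real.log_two_gt_d9
      linarith
    have h8 : (0 : ℝ) ≤ Nat.log 2 m.natAbs := Nat.cast_nonneg _
    nlinarith
  have hlog : 0 ≤ Real.log |((γ 1 0 : ℤ) : ℝ)| := by
    apply Real.log_nonneg
    exact_mod_cast Int.one_le_abs h0
  push_cast
  have hXN : X ≤ N * X := by nlinarith
  calc X + ((Nat.log 2 m.natAbs : ℝ) + 1) * (X + N * X)
      ≤ N * X + (2 * Real.log |((γ 1 0 : ℤ) : ℝ)| + 1) * (N * X + N * X) := by gcongr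
    _ ≤ 4 * X * N * (1 + Real.log |((γ 1 0 : ℤ) : ℝ)|) := by
      have : 0 ≤ (N : ℝ) * X := by positivity
      nlinarith

end Pool.Agent.TH133.SH
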