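import Pool.Agent.TH133.SH.Farey

/-!
# The Shimura map: small lower left entries suffice
-/

open Complex Matrix.SpecialLinearGroup MatrixGroups

namespace Pool.Agent.TH133.SH

/-- There are constants `κ`, `C` such that the coordinates of `H(γ)` are at most `C N ^ κ`, for all
newforms of all levels `N` and all `γ ∈ Γ₀(N)` whose lower left entry has absolute value at most
`17 * 64 ^ ω(N) * N`. -/
def SmallLowerLeft : Prop :=
  ∃ κ : ℝ, 0 < κ ∧ ∃ C : ℝ, 0 < C ∧ ∀ N : ℕ, 1 ≤ N → ∀ a : ℕ → ℤ, IsNewform N a →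
    ∀ Ω₁ Ω₂ : ℂ, IsBasis N a Ω₁ Ω₂ → ∀ p q r s : ℤ, p * s - q * r = 1 → (N : ℤ) ∣ r →
      |r| ≤ smallEntry N → CoordBound a Ω₁ Ω₂ p q r s (C * (N : ℝ) ^ κ)

lemma log_smallEntry {N : ℕ} (hN : 1 ≤ N) : Real.log (smallEntry N : ℝ) ≤ 146 * N := by
  have hN0 : (0 : ℝ) < N := by exact_mod_cast hN
  have hN1 : (1 : ℝ) ≤ N := by exact_mod_cast hN
  have hcard : N.primeFactors.card ≤ N + 1 := by
    have h1 : N.primeFactors ⊆ Finset.range (N + 1) := fun p hp =>
      Finset.mem_range.2 (Nat.lt_succ_of_le (Nat.le_of_mem_primeFactors hp))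
    simpa using Finset.card_le_card h1
  have hcard' : (N.primeFactors.card : ℝ) ≤ N + 1 := by exact_mod_cast hcard
  rw [smallEntry]
  push_cast
  rw [Real.log_mul (by positivity) hN0.ne', Real.log_mul (by positivity) (by positivity),
    Real.log_pow]
  have h1 := Real.log_le_self (x := 17) (by norm_num)
  have h2 := Real.log_le_self (x := 64) (by norm_num)
  have h3 := Real.log_le_self hN0.le
  have h4 : 0 ≤ Real.log 64 := Real.log_nonneg (by norm_num)
  have h5 : (N.primeFactors.card : ℝ) * Real.log 64 ≤ (N + 1) * 64 :=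
    mul_le_mul hcard' h2 h4 (by positivity)
  linarith

theorem shimura_tfae_small : List.TFAE [EntriesAtMost 2, SmallLowerLeft,
    ∀ A : ℕ, EntriesAtMost A, LogarithmicGrowth] := by
  have h0 := shimura_tfae
  tfae_have 1 → 4 := (h0.out 0 2).1
  tfae_have 4 → 3 := (h0.out 2 1).1
  tfae_have 3 → 1 := (h0.out 1 0).1
  tfae_have 2 → 4 := by
    rintro ⟨κ, hκ, C, hC, h⟩
    refine ⟨κ + 1, by positivity, 4 * C, by positivity, ?_⟩
    intro N hN a ha Ω₁ Ω₂ hb p q r s hdet hr hr0 m n hmn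
    have hN0 : (0 : ℝ) < N := by exact_mod_cast hN
    set B : ℝ := C * (N : ℝ) ^ κ with hBdef
    set γ := mk p q r s hdet with hγdef
    have hγ : InG N γ := hr
    have key : ∀ δ : SL(2, ℤ), InG N δ → |δ 1 0| ≤ smallEntry N →
        |L₁ Ω₁ Ω₂ (Hs a δ)| ≤ B ∧ |L₂ Ω₂ (Hs a δ)| ≤ B := by
      intro δ hδ hδ'
      obtain ⟨m', n', hmn'⟩ := lattice ha.toIsForm hb (z := Hs a δ) ⟨δ, hδ, rfl⟩
      have h1 := h N hN a ha Ω₁ Ω₂ hb (δ 0 0) (δ 0 1) (δ 1 0) (δ 1 1) (det_eq δ) hδ hδ' m' n'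
        hmn'
      rw [hmn', L₁_apply hb, L₂_apply hb]
      exact h1
    have hb1 := growth_small (isCuspHom ha.toIsForm (L₁ Ω₁ Ω₂)) hN
      (fun δ h1 h2 => (key δ h1 h2).1) hγ hr0
    have hb2 := growth_small (isCuspHom ha.toIsForm (L₂ Ω₂)) hN
      (fun δ h1 h2 => (key δ h1 h2).2) hγ hr0
    have hHγ : Hs a γ = (m : ℂ) * Ω₁ + (n : ℂ) * Ω₂ := hmn
    simp only [hHγ, L₁_apply hb] at hb1
    simp only [hHγ, L₂_apply hb] at hb2
    have e1 : 4 * B * N * (1 + Real.log |((γ 1 0 : ℤ) : ℝ)|) =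
        4 * C * (N : ℝ) ^ (κ + 1) * (1 + Real.log |(r : ℝ)|) := by
      rw [hBdef, Real.rpow_add hN0, Real.rpow_one]
      have : γ 1 0 = r := rfl
      rw [this]
      ring
    rw [e1] at hb1 hb2
    exact ⟨hb1, hb2⟩
  tfae_have 4 → 2 := by
    rintro ⟨κ, hκ, C, hC, h⟩
    refine ⟨κ + 1, by positivity, C * 147, by positivity, ?_⟩
    intro N hN a ha Ω₁ Ω₂ hb p q r s hdet hr hrA m n hmn
    have hN0 : (0 : ℝ) < N := by exact_mod_cast hN
    have hN1 : (1 : ℝ) ≤ N := by exact_mod_cast hN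
    by_cases hr0 : r = 0
    · have h1 : Hs a (mk p q r s hdet) = 0 := by
        have h2 := (isCuspHom ha.toIsForm Complex.reLm).zero_of_lower
          (g := mk p q r s hdet) hr0
        have h3 := (isCuspHom ha.toIsForm Complex.imLm).zero_of_lower
          (g := mk p q r s hdet) hr0
        exact Complex.ext h2 h3
      have hHγ : Hs a (mk p q r s hdet) = (m : ℂ) * Ω₁ + (n : ℂ) * Ω₂ := hmn
      rw [h1] at hHγ
      have h4 := L₁_apply hb m n
      have h5 := L₂_apply hb m n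
      rw [← hHγ, map_zero] at h4 h5
      rw [← h4, ← h5, abs_zero]
      constructor <;> positivity
    · have h1 := h N hN a ha Ω₁ Ω₂ hb p q r s hdet hr hr0 m n hmn
      have h2 : Real.log |(r : ℝ)| ≤ 146 * N := by
        have h3 : |(r : ℝ)| ≤ (smallEntry N : ℝ) := by exact_mod_cast hrA
        have h4 : 0 < |(r : ℝ)| := by
          rw [abs_pos]
          exact_mod_cast hr0
        exact (Real.log_le_log h4 h3).trans (log_smallEntry hN)
      have h3 : C * (N : ℝ) ^ κ * (1 + Real.log |(r : ℝ)|) ≤ C * 147 * (N : ℝ) ^ (κ + 1) := by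
        rw [Real.rpow_add hN0, Real.rpow_one]
        calc C * (N : ℝ) ^ κ * (1 + Real.log |(r : ℝ)|)
            ≤ C * (N : ℝ) ^ κ * (N + 146 * N) := by gcongr
          _ = C * 147 * ((N : ℝ) ^ κ * N) := by ring
      exact ⟨h1.1.trans h3, h1.2.trans h3⟩
  tfae_finish

end Pool.Agent.TH133.SH
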