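import Mathlib.NumberTheory.Modular
import Mathlib.Data.ZMod.ValMinAbs
import Mathlib.Data.ZMod.Units
import Mathlib.Analysis.SpecialFunctions.Log.Basic
import Mathlib.Tactic

/-!
# Homomorphisms on `Γ₀(N)` which vanish on parabolic elements
-/

open Matrix Matrix.SpecialLinearGroup MatrixGroups ModularGroup

namespace Pool.Agent.TH133.SH

/-- The matrix `γ` lies in `Γ₀(N)`. -/
def InG (N : ℕ) (γ : SL(2, ℤ)) : Prop := (N : ℤ) ∣ γ 1 0

/-- `φ` is additive on `Γ₀(N)` and vanishes on the elements of trace `2` or `-2`. -/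
structure IsCuspHom (N : ℕ) (φ : SL(2, ℤ) → ℝ) : Prop where
  map_mul : ∀ γ δ : SL(2, ℤ), InG N γ → InG N δ → φ (γ * δ) = φ γ + φ δ
  parabolic : ∀ γ : SL(2, ℤ), InG N γ → (γ 0 0 + γ 1 1) ^ 2 = 4 → φ γ = 0

/-- All entries of `γ` have absolute value at most `M`. -/
def Bounded (M : ℤ) (γ : SL(2, ℤ)) : Prop := ∀ i j, |γ i j| ≤ M

lemma mul00 (g h : SL(2, ℤ)) : (g * h) 0 0 = g 0 0 * h 0 0 + g 0 1 * h 1 0 := by
  rw [coe_mul, Matrix.mul_apply, Fin.sum_univ_two]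

lemma mul01 (g h : SL(2, ℤ)) : (g * h) 0 1 = g 0 0 * h 0 1 + g 0 1 * h 1 1 := by
  rw [coe_mul, Matrix.mul_apply, Fin.sum_univ_two]

lemma mul10 (g h : SL(2, ℤ)) : (g * h) 1 0 = g 1 0 * h 0 0 + g 1 1 * h 1 0 := by
  rw [coe_mul, Matrix.mul_apply, Fin.sum_univ_two]

lemma mul11 (g h : SL(2, ℤ)) : (g * h) 1 1 = g 1 0 * h 0 1 + g 1 1 * h 1 1 := by
  rw [coe_mul, Matrix.mul_apply, Fin.sum_univ_two]

lemma inv00 (g : SL(2, ℤ)) : g⁻¹ 0 0 = g 1 1 := by simp [SL2_inv_expl]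
lemma inv01 (g : SL(2, ℤ)) : g⁻¹ 0 1 = - g 0 1 := by simp [SL2_inv_expl]
lemma inv10 (g : SL(2, ℤ)) : g⁻¹ 1 0 = - g 1 0 := by simp [SL2_inv_expl]
lemma inv11 (g : SL(2, ℤ)) : g⁻¹ 1 1 = g 0 0 := by simp [SL2_inv_expl]

lemma det_eq (g : SL(2, ℤ)) : g 0 0 * g 1 1 - g 0 1 * g 1 0 = 1 := by
  have := g.det_coe
  rwa [Matrix.det_fin_two] at this

lemma T_pow (k : ℤ) : (T ^ k) 0 0 = 1 ∧ (T ^ k) 0 1 = k ∧ (T ^ k) 1 0 = 0 ∧ (T ^ k) 1 1 = 1 := by
  rw [coe_T_zpow]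
  simp

lemma S_ent : S 0 0 = 0 ∧ S 0 1 = -1 ∧ S 1 0 = 1 ∧ S 1 1 = 0 := by
  rw [coe_S]
  simp

lemma InG.mul {N : ℕ} {g h : SL(2, ℤ)} (hg : InG N g) (hh : InG N h) : InG N (g * h) := by
  unfold InG at *
  rw [mul10]
  exact dvd_add (Dvd.dvd.mul_right hg _) (Dvd.dvd.mul_left hh _)

lemma InG.inv {N : ℕ} {g : SL(2, ℤ)} (hg : InG N g) : InG N g⁻¹ := by
  unfold InG at *
  rw [inv10]
  exact (dvd_neg).2 hg

/-- The bottom row of `r` is small. -/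
def Small (N : ℕ) (r : SL(2, ℤ)) : Prop := 2 * |r 1 0| ≤ N ∧ 2 * |r 1 1| ≤ N

lemma exists_unit_gcd {N : ℕ} (hN : 1 ≤ N) (c : ℤ) : ∃ w : ℤ, IsCoprime w (N : ℤ) ∧
    (N : ℤ) ∣ w * c - (Int.gcd c N : ℤ) := by
  have : NeZero N := ⟨by omega⟩
  set e : ℕ := Int.gcd c N with he
  have hepos : 0 < e := Int.gcd_pos_of_ne_zero_right _ (by exact_mod_cast (by omega : N ≠ 0))
  have heN : e ∣ N := by
    have := Int.gcd_dvd_right (a := c) (b := (N : ℤ))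
    exact_mod_cast this
  obtain ⟨N₁, hN₁⟩ := heN
  obtain ⟨c₁, hc₁⟩ : (e : ℤ) ∣ c := Int.gcd_dvd_left c N
  have hN₁0 : 0 < N₁ := Nat.pos_of_ne_zero (by rintro rfl; omega)
  have hcop : IsCoprime c₁ (N₁ : ℤ) := by
    rw [Int.isCoprime_iff_gcd_eq_one]
    have h1 : Int.gcd ((e : ℤ) * c₁) ((e : ℤ) * N₁) = e * Int.gcd c₁ N₁ := by
      rw [Int.gcd_mul_left]
      simp
    have h2 : Int.gcd ((e : ℤ) * c₁) ((e : ℤ) * N₁) = e := by
      rw [← hc₁]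
      have : ((e : ℤ) * N₁) = (N : ℤ) := by rw [hN₁]; push_cast; ring
      rw [this, ← he]
    rw [h2] at h1
    exact Nat.eq_of_mul_eq_mul_left hepos (by omega)
  obtain ⟨u, v, huv⟩ := hcop
  have hu : IsUnit ((u : ℤ) : ZMod N₁) := by
    apply IsUnit.of_mul_eq_one (b := ((c₁ : ℤ) : ZMod N₁))
    have h3 : ((u * c₁ + v * N₁ : ℤ) : ZMod N₁) = 1 := by rw [huv]; simp
    push_cast at h3
    simpa using h3
  obtain ⟨w', hw'⟩ := ZMod.unitsMap_surjective (m := N) (n := N₁) (Dvd.intro_left e hN₁.symm)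
    hu.unit
  refine ⟨(ZMod.val (w' : ZMod N) : ℤ), ?_, ?_⟩
  · have h4 : Nat.Coprime (ZMod.val (w' : ZMod N)) N := ZMod.val_coe_unit_coprime w'
    exact_mod_cast Nat.isCoprime_iff_coprime.2 h4
  · have h5 : ((ZMod.val (w' : ZMod N) : ℤ) : ZMod N₁) = (u : ZMod N₁) := by
      have h6 := congrArg (fun z : (ZMod N₁)ˣ => (z : ZMod N₁)) hw'
      simp only [ZMod.unitsMap_def, Units.coe_map, MonoidHom.coe_coe, IsUnit.unit_spec] at h6
      rw [← h6, ZMod.castHom_apply, Int.cast_natCast, ZMod.natCast_val]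
    have h7 : (((ZMod.val (w' : ZMod N) : ℤ) * c₁ - 1 : ℤ) : ZMod N₁) = 0 := by
      have h3 : ((u * c₁ + v * N₁ : ℤ) : ZMod N₁) = 1 := by rw [huv]; simp
      push_cast at h3 h5 ⊢
      rw [h5]
      simpa [sub_eq_zero] using h3
    obtain ⟨m, hm⟩ := (ZMod.intCast_zmod_eq_zero_iff_dvd _ _).1 h7
    refine ⟨m, ?_⟩
    have : (N : ℤ) = e * N₁ := by rw [hN₁]; push_cast; ring
    rw [this]
    have h8 : c = (e : ℤ) * c₁ := hc₁
    calc (ZMod.val (w' : ZMod N) : ℤ) * c - (e : ℤ)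
        = (e : ℤ) * ((ZMod.val (w' : ZMod N) : ℤ) * c₁ - 1) := by rw [h8]; ring
      _ = (e : ℤ) * ((N₁ : ℤ) * m) := by rw [hm]
      _ = (e : ℤ) * N₁ * m := by ring

/-- Each coset of `Γ₀(N)` contains a matrix with small bottom row, if `N ≥ 2`. -/
lemma exists_small {N : ℕ} (hN : 2 ≤ N) (g : SL(2, ℤ)) :
    ∃ r : SL(2, ℤ), Small N r ∧ InG N (g * r⁻¹) := by
  have : NeZero N := ⟨by omega⟩
  by_cases hg : InG N g
  · refine ⟨1, ?_, by simpa using hg⟩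
    constructor
    · simp
    · simp
      exact_mod_cast hN
  obtain ⟨w, hw, hwe⟩ := exists_unit_gcd (N := N) (by omega) (g 1 0)
  set e : ℕ := Int.gcd (g 1 0) N with he
  have hepos : 0 < e := Int.gcd_pos_of_ne_zero_right _ (by exact_mod_cast (by omega : N ≠ 0))
  have heN : (e : ℤ) ∣ (N : ℤ) := Int.gcd_dvd_right (g 1 0) N
  have hec : (e : ℤ) ∣ g 1 0 := Int.gcd_dvd_left (g 1 0) N
  have he2 : 2 * e ≤ N := by
    obtain ⟨m, hm⟩ := heN
    have hm1 : m ≠ 1 := by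
      rintro rfl
      apply hg
      unfold InG
      rw [hm, mul_one]
      exact hec
    have hm0 : 0 < m := by
      by_contra hc
      have : (N : ℤ) ≤ 0 := by rw [hm]; nlinarith
      omega
    have hm2 : 2 ≤ m := by omega
    have : (2 * e : ℤ) ≤ N := by rw [hm]; nlinarith
    exact_mod_cast this
  set v : ℤ := ((w * g 1 1 : ℤ) : ZMod N).valMinAbs with hv
  have hv1 : ((v : ℤ) : ZMod N) = ((w * g 1 1 : ℤ) : ZMod N) := ZMod.coe_valMinAbs _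
  have hv2 : (N : ℤ) ∣ v - w * g 1 1 := by
    rw [← ZMod.intCast_zmod_eq_zero_iff_dvd]
    push_cast at hv1 ⊢
    rw [hv1, sub_self]
  have hv3 : 2 * |v| ≤ N := by
    have h1 := ZMod.natAbs_valMinAbs_le ((w * g 1 1 : ℤ) : ZMod N)
    rw [← hv] at h1
    have h2 : (|v| : ℤ) = (v.natAbs : ℤ) := Int.abs_eq_natAbs v
    omega
  have hcop : IsCoprime (e : ℤ) v := by
    have h1 : IsCoprime (e : ℤ) w := (hw.of_isCoprime_of_dvd_right heN).symm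
    have h2 : IsCoprime (e : ℤ) (g 1 1) := by
      have h3 : IsCoprime (g 1 0) (g 1 1) := by
        refine ⟨- g 0 1, g 0 0, ?_⟩
        have := det_eq g
        linarith
      exact h3.of_isCoprime_of_dvd_left hec
    have h4 : IsCoprime (e : ℤ) (w * g 1 1) := h1.mul_right h2
    obtain ⟨m, hm⟩ := heN.trans hv2
    have h5 : v = w * g 1 1 + e * m := by linarith
    rw [h5]
    exact (IsCoprime.add_mul_left_right_iff).2 h4
  obtain ⟨r, -, hr⟩ := bottom_row_surj (R := ℤ) (show ![(e : ℤ), v] ∈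
    {cd : Fin 2 → ℤ | IsCoprime (cd 0) (cd 1)} by simpa using hcop)
  have hr0 : r 1 0 = e := congrFun hr 0
  have hr1 : r 1 1 = v := congrFun hr 1
  refine ⟨r, ⟨?_, ?_⟩, ?_⟩
  · rw [hr0, abs_of_nonneg (by positivity)]
    exact_mod_cast he2
  · rw [hr1]
    exact hv3
  · unfold InG
    rw [mul10, inv00, inv10, hr0, hr1]
    have h1 : g 1 0 * v + g 1 1 * -(e : ℤ) =
        g 1 0 * (v - w * g 1 1) + g 1 1 * (w * g 1 0 - e) := by ring
    rw [h1]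
    exact dvd_add (Dvd.dvd.mul_left hv2 _) (Dvd.dvd.mul_left hwe _)

end Pool.Agent.TH133.SH
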