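import Pool.Agent.TH133.SH.Analysis
import Pool.Agent.TH133.SH.Bound

/-!
# The Shimura map is a homomorphism and vanishes on parabolic elements
-/

open Complex Matrix.SpecialLinearGroup MatrixGroups

namespace Pool.Agent.TH133.SH

variable {a : ℕ → ℤ} {N : ℕ}

/-- The value `H(γ) = F(γ i) - F(i)` for the matrix `γ` with rows `(p, q)`, `(r, s)`. -/
noncomputable def Hval (a : ℕ → ℤ) (p q r s : ℤ) : ℂ :=
  Fser a (((p : ℂ) * Complex.I + (q : ℂ)) / ((r : ℂ) * Complex.I + (s : ℂ))) - Fser a Complex.I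

/-- The value `H(γ)` for an element of the modular group. -/
noncomputable def Hs (a : ℕ → ℤ) (g : SL(2, ℤ)) : ℂ := Hval a (g 0 0) (g 0 1) (g 1 0) (g 1 1)

/-- The action of an element of the modular group. -/
noncomputable def act (g : SL(2, ℤ)) (τ : ℂ) : ℂ :=
  mob (g 0 0 : ℤ) (g 0 1 : ℤ) (g 1 0 : ℤ) (g 1 1 : ℤ) τ

lemma det_real (g : SL(2, ℤ)) :
    ((g 0 0 : ℤ) : ℝ) * (g 1 1 : ℤ) - ((g 0 1 : ℤ) : ℝ) * (g 1 0 : ℤ) = 1 := by
  exact_mod_cast congrArg (fun x : ℤ => (x : ℝ)) (det_eq g)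

lemma act_im_pos (g : SL(2, ℤ)) {τ : ℂ} (hτ : 0 < τ.im) : 0 < (act g τ).im :=
  im_mob_pos (det_real g) hτ

lemma mob_mul {p q r s p' q' r' s' : ℝ} (h : p * s - q * r = 1) (h' : p' * s' - q' * r' = 1)
    {τ : ℂ} (hτ : 0 < τ.im) : mob p q r s (mob p' q' r' s' τ) =
      mob (p * p' + q * r') (p * q' + q * s') (r * p' + s * r') (r * q' + s * s') τ := by
  have h1 := den_ne h (im_mob_pos h' hτ)
  have h2 := den_ne h' hτ
  have h3 : (p * p' + q * r') * (r * q' + s * s') - (p * q' + q * s') * (r * p' + s * r') = 1 := by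
    linear_combination (p' * s' - q' * r') * h + h'
  have h4 := den_ne h3 hτ
  unfold mob at h1 ⊢
  rw [div_eq_div_iff h1 h4]
  obtain ⟨x, hx⟩ : ∃ x : ℂ, x = ((p' : ℂ) * τ + (q' : ℂ)) / ((r' : ℂ) * τ + (s' : ℂ)) := ⟨_, rfl⟩
  rw [← hx]
  rw [eq_div_iff h2] at hx
  push_cast
  linear_combination ((p : ℂ) * s - q * r) * hx

lemma act_mul (g h : SL(2, ℤ)) {τ : ℂ} (hτ : 0 < τ.im) : act (g * h) τ = act g (act h τ) := by
  unfold act
  rw [mob_mul (det_real g) (det_real h) hτ, mul00, mul01, mul10, mul11]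
  push_cast
  rfl

lemma act_one (τ : ℂ) : act 1 τ = τ := by
  unfold act mob
  simp

lemma Hs_eq (g : SL(2, ℤ)) : Hs a g = Fser a (act g Complex.I) - Fser a Complex.I := by
  unfold Hs Hval act mob
  push_cast
  rfl

/-- `F(γ τ) - F(τ)` does not depend on `τ`. -/
lemma diff_eq (ha : IsForm N a) {g : SL(2, ℤ)} (hg : InG N g) {τ : ℂ} (hτ : 0 < τ.im) :
    Fser a (act g τ) - Fser a τ = Hs a g := by
  set u : Set ℂ := {w : ℂ | 0 < w.im} with hu
  have huc : Convex ℝ u := convex_halfSpace_im_gt 0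
  have h1 := huc.norm_image_sub_le_of_norm_hasDerivWithin_le
    (f := fun z => Fser a (act g z) - Fser a z)
    (f' := fun τ => 0) (C := 0)
    (fun w hw => ?_)
    (fun w hw => by simp) (x := Complex.I) (y := τ)
    (by change 0 < Complex.I.im; simp) (by exact hτ)
  · rw [zero_mul] at h1
    have h2 := norm_le_zero_iff.1 h1
    rw [sub_eq_zero] at h2
    rw [Hs_eq]
    exact h2
  · have hw0 : 0 < w.im := hw
    have h2 := (hasDerivAt_comp ha (det_real g) hw0).sub (hasDerivAt_Fser ha.zero ha.summable hw0)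
    refine (h2.congr_deriv ?_).hasDerivWithinAt
    have h3 := ha.modular w hw0 (g 0 0) (g 0 1) (g 1 0) (g 1 1) (det_eq g) hg
    have h4 := den_ne (det_real g) hw0
    have e1 : mob (g 0 0 : ℤ) (g 0 1 : ℤ) (g 1 0 : ℤ) (g 1 1 : ℤ) w =
        ((g 0 0 : ℂ) * w + (g 0 1 : ℂ)) / ((g 1 0 : ℂ) * w + (g 1 1 : ℂ)) := by
      unfold mob
      push_cast
      rfl
    rw [e1, h3]
    push_cast at h4 ⊢
    field_simp
    ring

lemma Hs_mul (ha : IsForm N a) {g h : SL(2, ℤ)} (hg : InG N g) : Hs a (g * h) = Hs a g + Hs a h := by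
  have h0 : (0 : ℝ) < Complex.I.im := by simp
  rw [Hs_eq, act_mul g h h0, ← diff_eq ha hg (act_im_pos h h0), Hs_eq h]
  ring

lemma mob_neg (p q r s : ℝ) (τ : ℂ) : mob (-p) (-q) (-r) (-s) τ = mob p q r s τ := by
  unfold mob
  push_cast
  rw [show -(p : ℂ) * τ + -(q : ℂ) = -((p : ℂ) * τ + q) by ring,
    show -(r : ℂ) * τ + -(s : ℂ) = -((r : ℂ) * τ + s) by ring, neg_div_neg_eq]

lemma mob_T (t : ℝ) (τ : ℂ) : mob 1 t 0 1 τ = τ + t := by
  unfold mob
  simp

/-- The Shimura map vanishes on conjugates of translations. -/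
lemma Hs_zero_of_conj (ha : IsForm N a) {g : SL(2, ℤ)} (hg : InG N g) {p q r s t : ℝ}
    (h : p * s - q * r = 1)
    (hconj : ∀ τ : ℂ, 0 < τ.im → act g (mob p q r s τ) = mob p q r s (τ + t)) : Hs a g = 0 := by
  obtain ⟨B, hB⟩ := ha.bounded
  have hbd : ∀ y : ℝ, 0 < y → ‖Hs a g‖ ≤ 2 * Real.pi * B / y * |t| := by
    intro y hy
    have hy' : (0 : ℝ) < ((y : ℂ) * Complex.I).im := by simpa using hy
    rw [← diff_eq ha hg (im_mob_pos h hy'), hconj _ hy']
    exact horo ha h hB t hy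
  have hB0 : 0 ≤ B := by
    refine le_trans ?_ (hB Complex.I (by simp))
    simp
  by_contra hc
  have hpos : 0 < ‖Hs a g‖ := norm_pos_iff.2 hc
  have h1 := hbd ((2 * Real.pi * B * |t| + 1) / ‖Hs a g‖) (by positivity)
  have h2 : 2 * Real.pi * B / ((2 * Real.pi * B * |t| + 1) / ‖Hs a g‖) * |t| =
      (2 * Real.pi * B * |t|) / (2 * Real.pi * B * |t| + 1) * ‖Hs a g‖ := by
    field_simp
  rw [h2] at h1
  have h3 : (2 * Real.pi * B * |t|) / (2 * Real.pi * B * |t| + 1) < 1 := by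
    rw [div_lt_one (by positivity)]
    linarith
  nlinarith

lemma Hs_parabolic (ha : IsForm N a) {g : SL(2, ℤ)} (hg : InG N g)
    (htr : (g 0 0 + g 1 1) ^ 2 = 4) : Hs a g = 0 := by
  have hdet := det_real g
  have htr' : (((g 0 0 : ℤ) : ℝ) + (g 1 1 : ℤ)) ^ 2 = 4 := by exact_mod_cast congrArg (fun x : ℤ => (x : ℝ)) htr
  obtain ⟨ε, hε, hε'⟩ : ∃ ε : ℝ, (ε = 1 ∨ ε = -1) ∧ ((g 0 0 : ℤ) : ℝ) + (g 1 1 : ℤ) = 2 * ε := by
    have h1 : (((g 0 0 : ℤ) : ℝ) + (g 1 1 : ℤ) - 2) * (((g 0 0 : ℤ) : ℝ) + (g 1 1 : ℤ) + 2) = 0 := by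
      linear_combination htr'
    rcases mul_eq_zero.1 h1 with h | h
    · exact ⟨1, Or.inl rfl, by linarith⟩
    · exact ⟨-1, Or.inr rfl, by linarith⟩
  set A : ℝ := ((g 0 0 : ℤ) : ℝ) with hA
  set Bb : ℝ := ((g 0 1 : ℤ) : ℝ) with hBb
  set Cc : ℝ := ((g 1 0 : ℤ) : ℝ) with hCc
  set D : ℝ := ((g 1 1 : ℤ) : ℝ) with hD
  have hεε : ε * ε = 1 := by rcases hε with h | h <;> rw [h] <;> norm_num
  have hscale : ∀ (x y z w : ℝ) (τ : ℂ), mob (ε * x) (ε * y) (ε * z) (ε * w) τ = mob x y z w τ := by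
    intro x y z w τ
    rcases hε with h | h
    · rw [h, one_mul, one_mul, one_mul, one_mul]
    · rw [h, neg_one_mul, neg_one_mul, neg_one_mul, neg_one_mul, mob_neg]
  by_cases hc : Cc = 0
  · have hAD : A * D = 1 := by rw [hc] at hdet; linarith
    have h1 : A = ε := by nlinarith [sq_nonneg (A - ε), sq_nonneg (D - ε)]
    have h2 : D = ε := by linarith
    refine Hs_zero_of_conj ha hg (p := 1) (q := 0) (r := 0) (s := 1) (t := ε * Bb) (by norm_num)
      (fun τ hτ => ?_)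
    have e1 : act g = mob A Bb Cc D := rfl
    rw [e1, mob_mul hdet (by norm_num) hτ, ← mob_T (ε * Bb) τ, mob_mul (by norm_num) (by norm_num) hτ,
      h1, h2, hc, ← hscale (1 * 1 + 0 * 0)]
    congr 1
    · ring
    · linear_combination (-Bb) * hεε
    · ring
    · ring
  · obtain ⟨x₀, hx⟩ : ∃ x₀ : ℝ, x₀ * Cc = A - ε := ⟨(A - ε) / Cc, by field_simp⟩
    refine Hs_zero_of_conj ha hg (p := x₀) (q := -1) (r := 1) (s := 0) (t := -(ε * Cc)) (by norm_num)
      (fun τ hτ => ?_)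
    have e1 : act g = mob A Bb Cc D := rfl
    rw [e1, mob_mul hdet (by norm_num) hτ, ← mob_T (-(ε * Cc)) τ,
      mob_mul (by norm_num) (by norm_num) hτ, ← hscale (x₀ * 1 + -1 * 0)]
    have hAx : A * x₀ + Bb = ε * x₀ := by
      have : (A * x₀ + Bb - ε * x₀) * Cc = 0 := by
        linear_combination (A - ε) * hx - hdet + A * hε' + hεε
      have := (mul_eq_zero.1 this).resolve_right hc
      linarith
    congr 1
    · linear_combination hAx
    · linear_combination (ε * ε) * hx + (A - ε) * hεε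
    · linear_combination hx + hε'
    · linear_combination Cc * hεε

/-- The functions obtained from the Shimura map are homomorphisms of the kind considered above. -/
lemma isCuspHom (ha : IsForm N a) (L : ℂ →ₗ[ℝ] ℝ) : IsCuspHom N (fun g => L (Hs a g)) where
  map_mul := fun γ δ hγ _ => by rw [Hs_mul ha hγ, map_add]
  parabolic := fun γ hγ htr => by rw [Hs_parabolic ha hγ htr, map_zero]

end Pool.Agent.TH133.SH
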