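import Pool.Agent.TH133.SH.Hom
import Pool.Agent.TH133.SH.Extend

/-!
# The Shimura map: polynomial bounds on small matrices and logarithmic growth
-/

open Complex Matrix.SpecialLinearGroup MatrixGroups

namespace Pool.Agent.TH133.SH

/-- The integers `a(n)` are the coefficients of a newform of weight two and level `N`. -/
structure IsNewform (N : ℕ) (a : ℕ → ℤ) : Prop extends IsForm N a where
  one : a 1 = 1
  hecke : ∀ ℓ : ℕ, ℓ.Prime → ¬ ℓ ∣ N → ∀ n : ℕ,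
    a (ℓ * n) + (if ℓ ∣ n then (ℓ : ℤ) * a (n / ℓ) else 0) = a ℓ * a n
  new : ∀ M : ℕ, 0 < M → M ∣ N → M < N → ∀ b : ℕ → ℂ,
    (∀ τ : ℂ, 0 < τ.im → Summable (fun k : ℕ => b k *
      Complex.exp (2 * (Real.pi : ℂ) * Complex.I * (k : ℂ) * τ))) →
    (∀ τ : ℂ, 0 < τ.im → ∀ p q r s : ℤ, p * s - q * r = 1 → (M : ℤ) ∣ r →
      ∑' k : ℕ, b k * Complex.exp (2 * (Real.pi : ℂ) * Complex.I * (k : ℂ) *
        (((p : ℂ) * τ + (q : ℂ)) / ((r : ℂ) * τ + (s : ℂ)))) =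
      ((r : ℂ) * τ + (s : ℂ)) ^ 2 *
        ∑' k : ℕ, b k * Complex.exp (2 * (Real.pi : ℂ) * Complex.I * (k : ℂ) * τ)) →
    (∃ B : ℝ, ∀ τ : ℂ, 0 < τ.im →
      τ.im * ‖∑' k : ℕ, b k * Complex.exp (2 * (Real.pi : ℂ) * Complex.I * (k : ℂ) * τ)‖ ≤ B) →
    (∀ ℓ : ℕ, ℓ.Prime → ¬ ℓ ∣ N → ∀ n : ℕ,
      b (ℓ * n) + (if ℓ ∣ n then (ℓ : ℂ) * b (n / ℓ) else 0) = (a ℓ : ℂ) * b n) →
    ∀ n : ℕ, b n = 0

/-- `Ω₁`, `Ω₂` is the basis of the lattice `H(Γ₀(N))` fixed in the problem. -/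
structure IsBasis (N : ℕ) (a : ℕ → ℤ) (Ω₁ Ω₂ : ℂ) : Prop where
  im₁ : Ω₁.im = 0
  re₁ : 0 < Ω₁.re
  mem₁ : ∃ p q r s : ℤ, p * s - q * r = 1 ∧ (N : ℤ) ∣ r ∧ Ω₁ = Hval a p q r s
  min₁ : ∀ p q r s : ℤ, p * s - q * r = 1 → (N : ℤ) ∣ r → (Hval a p q r s).im = 0 →
    0 < (Hval a p q r s).re → Ω₁.re ≤ (Hval a p q r s).re
  im₂ : 0 < Ω₂.im
  re₂ : 0 ≤ Ω₂.re
  re₂' : Ω₂.re < Ω₁.re
  mem₂ : ∃ p q r s : ℤ, p * s - q * r = 1 ∧ (N : ℤ) ∣ r ∧ Ω₂ = Hval a p q r s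
  min₂ : ∀ p q r s : ℤ, p * s - q * r = 1 → (N : ℤ) ∣ r → 0 < (Hval a p q r s).im →
    Ω₂.im ≤ (Hval a p q r s).im

/-- The coordinates of `H(γ)` in the basis `Ω₁`, `Ω₂` have absolute values at most `X`. -/
def CoordBound (a : ℕ → ℤ) (Ω₁ Ω₂ : ℂ) (p q r s : ℤ) (X : ℝ) : Prop :=
  ∀ m n : ℤ, Hval a p q r s = (m : ℂ) * Ω₁ + (n : ℂ) * Ω₂ → |(m : ℝ)| ≤ X ∧ |(n : ℝ)| ≤ X

/-- There are constants `κ`, `C` such that the coordinates of `H(γ)` are at most `C N ^ κ`, for all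
newforms of all levels `N` and all `γ ∈ Γ₀(N)` with entries of absolute value at most `N ^ A`. -/
def EntriesAtMost (A : ℕ) : Prop :=
  ∃ κ : ℝ, 0 < κ ∧ ∃ C : ℝ, 0 < C ∧ ∀ N : ℕ, 1 ≤ N → ∀ a : ℕ → ℤ, IsNewform N a →
    ∀ Ω₁ Ω₂ : ℂ, IsBasis N a Ω₁ Ω₂ → ∀ p q r s : ℤ, p * s - q * r = 1 → (N : ℤ) ∣ r →
      |p| ≤ (N : ℤ) ^ A → |q| ≤ (N : ℤ) ^ A → |r| ≤ (N : ℤ) ^ A → |s| ≤ (N : ℤ) ^ A →
      CoordBound a Ω₁ Ω₂ p q r s (C * (N : ℝ) ^ κ)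

/-- There are constants `κ`, `C` such that the coordinates of `H(γ)` are at most
`C N ^ κ (1 + log |r|)`, for all newforms of all levels `N` and all `γ ∈ Γ₀(N)`, where `r ≠ 0` is the
lower left entry of `γ`. -/
def LogarithmicGrowth : Prop :=
  ∃ κ : ℝ, 0 < κ ∧ ∃ C : ℝ, 0 < C ∧ ∀ N : ℕ, 1 ≤ N → ∀ a : ℕ → ℤ, IsNewform N a →
    ∀ Ω₁ Ω₂ : ℂ, IsBasis N a Ω₁ Ω₂ → ∀ p q r s : ℤ, p * s - q * r = 1 → (N : ℤ) ∣ r → r ≠ 0 →
      CoordBound a Ω₁ Ω₂ p q r s (C * (N : ℝ) ^ κ * (1 + Real.log |(r : ℝ)|))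

/-- The element of the modular group with given entries. -/
def mk (p q r s : ℤ) (h : p * s - q * r = 1) : SL(2, ℤ) :=
  ⟨!![p, q; r, s], by rw [Matrix.det_fin_two_of]; exact h⟩

lemma Hs_mk (a : ℕ → ℤ) (p q r s : ℤ) (h : p * s - q * r = 1) :
    Hs a (mk p q r s h) = Hval a p q r s := rfl

variable {N : ℕ} {a : ℕ → ℤ} {Ω₁ Ω₂ : ℂ}

/-- The subgroup of the values of the Shimura map. -/
def Lam (ha : IsForm N a) : AddSubgroup ℂ where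
  carrier := {z | ∃ g : SL(2, ℤ), InG N g ∧ Hs a g = z}
  add_mem' := by
    rintro _ _ ⟨g, hg, rfl⟩ ⟨h, hh, rfl⟩
    exact ⟨g * h, hg.mul hh, Hs_mul ha hg⟩
  zero_mem' := ⟨1, inG_one, Hs_parabolic ha inG_one (by simp)⟩
  neg_mem' := by
    rintro _ ⟨g, hg, rfl⟩
    refine ⟨g⁻¹, hg.inv, ?_⟩
    have h1 : Hs a (g * g⁻¹) = Hs a g + Hs a g⁻¹ := Hs_mul ha hg
    rw [mul_inv_cancel, Hs_parabolic ha inG_one (by simp)] at h1
    linear_combination -h1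

lemma lattice (ha : IsForm N a) (hb : IsBasis N a Ω₁ Ω₂) {z : ℂ} (hz : z ∈ Lam ha) :
    ∃ m n : ℤ, z = (m : ℂ) * Ω₁ + (n : ℂ) * Ω₂ := by
  have h₁ : Ω₁ ∈ Lam ha := by
    obtain ⟨p, q, r, s, h1, h2, h3⟩ := hb.mem₁
    exact ⟨mk p q r s h1, h2, h3.symm⟩
  have h₂ : Ω₂ ∈ Lam ha := by
    obtain ⟨p, q, r, s, h1, h2, h3⟩ := hb.mem₂
    exact ⟨mk p q r s h1, h2, h3.symm⟩
  set n : ℤ := ⌊z.im / Ω₂.im⌋ with hn
  have hw : z - n • Ω₂ ∈ Lam ha := (Lam ha).sub_mem hz ((Lam ha).zsmul_mem h₂ n)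
  set w : ℂ := z - n • Ω₂ with hwdef
  have hwim : w.im = z.im - n * Ω₂.im := by
    rw [hwdef]
    simp
  have hw0 : w.im = 0 := by
    have h3 : 0 ≤ w.im := by
      rw [hwim]
      have := Int.floor_le (z.im / Ω₂.im)
      rw [← hn, le_div_iff₀ hb.im₂] at this
      linarith
    have h4 : w.im < Ω₂.im := by
      rw [hwim]
      have := Int.lt_floor_add_one (z.im / Ω₂.im)
      rw [← hn, div_lt_iff₀ hb.im₂] at this
      linarith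
    by_contra hc
    obtain ⟨g, hg, hg'⟩ := hw
    have h5 := hb.min₂ (g 0 0) (g 0 1) (g 1 0) (g 1 1) (det_eq g) hg
      (by change 0 < (Hs a g).im; rw [hg']; exact lt_of_le_of_ne h3 (Ne.symm hc))
    change Ω₂.im ≤ (Hs a g).im at h5
    rw [hg'] at h5
    linarith
  set m : ℤ := ⌊w.re / Ω₁.re⌋ with hm
  have hv : w - m • Ω₁ ∈ Lam ha := (Lam ha).sub_mem hw ((Lam ha).zsmul_mem h₁ m)
  set v : ℂ := w - m • Ω₁ with hvdef
  have hvim : v.im = 0 := by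
    rw [hvdef]
    simp [hw0, hb.im₁]
  have hvre : v.re = w.re - m * Ω₁.re := by
    rw [hvdef]
    simp
  have hv0 : v.re = 0 := by
    have h3 : 0 ≤ v.re := by
      rw [hvre]
      have := Int.floor_le (w.re / Ω₁.re)
      rw [← hm, le_div_iff₀ hb.re₁] at this
      linarith
    have h4 : v.re < Ω₁.re := by
      rw [hvre]
      have := Int.lt_floor_add_one (w.re / Ω₁.re)
      rw [← hm, div_lt_iff₀ hb.re₁] at this
      linarith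
    by_contra hc
    obtain ⟨g, hg, hg'⟩ := hv
    have h5 := hb.min₁ (g 0 0) (g 0 1) (g 1 0) (g 1 1) (det_eq g) hg
      (by change (Hs a g).im = 0; rw [hg']; exact hvim)
      (by change 0 < (Hs a g).re; rw [hg']; exact lt_of_le_of_ne h3 (Ne.symm hc))
    change Ω₁.re ≤ (Hs a g).re at h5
    rw [hg'] at h5
    linarith
  refine ⟨m, n, ?_⟩
  have hvz : v = 0 := Complex.ext hv0 hvim
  rw [hvdef, hwdef, zsmul_eq_mul, zsmul_eq_mul] at hvz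
  linear_combination hvz

/-- The second coordinate of a complex number in the basis `Ω₁`, `Ω₂`. -/
noncomputable def L₂ (Ω₂ : ℂ) : ℂ →ₗ[ℝ] ℝ := (Ω₂.im)⁻¹ • Complex.imLm

/-- The first coordinate of a complex number in the basis `Ω₁`, `Ω₂`. -/
noncomputable def L₁ (Ω₁ Ω₂ : ℂ) : ℂ →ₗ[ℝ] ℝ := (Ω₁.re)⁻¹ • (Complex.reLm - Ω₂.re • L₂ Ω₂)

lemma L₂_apply (hb : IsBasis N a Ω₁ Ω₂) (m n : ℤ) :
    L₂ Ω₂ ((m : ℂ) * Ω₁ + (n : ℂ) * Ω₂) = n := by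
  have := hb.im₂.ne'
  simp [L₂, hb.im₁]
  field_simp

lemma L₁_apply (hb : IsBasis N a Ω₁ Ω₂) (m n : ℤ) :
    L₁ Ω₁ Ω₂ ((m : ℂ) * Ω₁ + (n : ℂ) * Ω₂) = m := by
  have h1 := hb.re₁.ne'
  have h2 := L₂_apply hb m n
  rw [L₁, LinearMap.smul_apply, LinearMap.sub_apply, LinearMap.smul_apply, h2]
  simp
  field_simp
  ring

/-- The bound for a coordinate function. -/
lemma coord_bound (hN : 1 ≤ N) (ha : IsForm N a) (L : ℂ →ₗ[ℝ] ℝ) {B : ℝ}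
    (hB : ∀ γ : SL(2, ℤ), InG N γ → Bounded ((N : ℤ) ^ 2) γ → |L (Hs a γ)| ≤ B)
    {γ : SL(2, ℤ)} (hγ : InG N γ) (h0 : γ 1 0 ≠ 0) :
    |L (Hs a γ)| ≤ 2 * B * N * (1 + Real.log |((γ 1 0 : ℤ) : ℝ)|) := by
  have hφ := isCuspHom ha L
  have hB0 : 0 ≤ B := by
    refine (abs_nonneg _).trans (hB 1 inG_one ?_)
    have hN1 : (1 : ℤ) ≤ N := by exact_mod_cast hN
    intro i j
    fin_cases i <;> fin_cases j <;> simp <;> nlinarith
  have habs : (1 : ℝ) ≤ |((γ 1 0 : ℤ) : ℝ)| := by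
    exact_mod_cast Int.one_le_abs h0
  have hlog : 0 ≤ Real.log |((γ 1 0 : ℤ) : ℝ)| := Real.log_nonneg habs
  have hN0 : (0 : ℝ) < N := by exact_mod_cast hN
  rcases Nat.lt_or_ge N 2 with h | h
  · obtain rfl : N = 1 := by omega
    rw [level_one hφ γ, abs_zero]
    positivity
  · have h1 := log_growth h hφ (extend hN hφ hB) hγ (Nat.log 2 (γ 1 0).natAbs + 1) (by
      rw [Int.abs_eq_natAbs]
      exact_mod_cast Nat.lt_pow_succ_log_self (by norm_num) _)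
    refine h1.trans ?_
    have h2 : (Nat.log 2 (γ 1 0).natAbs : ℝ) ≤ 2 * Real.log |((γ 1 0 : ℤ) : ℝ)| := by
      have h3 : (2 : ℝ) ^ Nat.log 2 (γ 1 0).natAbs ≤ |((γ 1 0 : ℤ) : ℝ)| := by
        have h4 : 2 ^ Nat.log 2 (γ 1 0).natAbs ≤ (γ 1 0).natAbs :=
          Nat.pow_log_le_self 2 (Int.natAbs_ne_zero.2 h0)
        have h5 : (((γ 1 0).natAbs : ℕ) : ℝ) = |((γ 1 0 : ℤ) : ℝ)| := by
          rw [Nat.cast_natAbs, Int.cast_abs]
        rw [← h5]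
        exact_mod_cast h4
      have h6 := Real.log_le_log (by positivity) h3
      rw [Real.log_pow] at h6
      have h7 : (0.5 : ℝ) ≤ Real.log 2 := by
        have := Real.log_two_gt_d9
        linarith
      have h8 : (0 : ℝ) ≤ Nat.log 2 (γ 1 0).natAbs := Nat.cast_nonneg _
      nlinarith
    push_cast
    have hN1 : (1 : ℝ) ≤ N := by exact_mod_cast hN
    have hNB : B ≤ N * B := by nlinarith
    have hNB0 : 0 ≤ (N : ℝ) * B := by positivity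
    calc ((Nat.log 2 (γ 1 0).natAbs : ℝ) + 1) * (N * B) + B
        ≤ (2 * Real.log |((γ 1 0 : ℤ) : ℝ)| + 1) * (N * B) + N * B := by gcongr
      _ = 2 * B * N * (1 + Real.log |((γ 1 0 : ℤ) : ℝ)|) := by ring

theorem shimura_tfae : List.TFAE [EntriesAtMost 2, ∀ A : ℕ, EntriesAtMost A, LogarithmicGrowth] := by
  tfae_have 2 → 1 := fun h => h 2
  tfae_have 1 → 3 := by
    rintro ⟨κ, hκ, C, hC, h⟩
    refine ⟨κ + 1, by positivity, 2 * C, by positivity, ?_⟩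
    intro N hN a ha Ω₁ Ω₂ hb p q r s hdet hr hr0 m n hmn
    have hN0 : (0 : ℝ) < N := by exact_mod_cast hN
    set B : ℝ := C * (N : ℝ) ^ κ with hBdef
    set γ := mk p q r s hdet with hγdef
    have hγ : InG N γ := hr
    have key : ∀ δ : SL(2, ℤ), InG N δ → Bounded ((N : ℤ) ^ 2) δ →
        |L₁ Ω₁ Ω₂ (Hs a δ)| ≤ B ∧ |L₂ Ω₂ (Hs a δ)| ≤ B := by
      intro δ hδ hδ'
      obtain ⟨m', n', hmn'⟩ := lattice ha.toIsForm hb (z := Hs a δ) ⟨δ, hδ, rfl⟩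
      have h1 := h N hN a ha Ω₁ Ω₂ hb (δ 0 0) (δ 0 1) (δ 1 0) (δ 1 1) (det_eq δ) hδ (hδ' 0 0)
        (hδ' 0 1) (hδ' 1 0) (hδ' 1 1) m' n' hmn'
      rw [hmn', L₁_apply hb, L₂_apply hb]
      exact h1
    have hb1 := coord_bound hN ha.toIsForm (L₁ Ω₁ Ω₂) (fun δ h1 h2 => (key δ h1 h2).1) hγ hr0
    have hb2 := coord_bound hN ha.toIsForm (L₂ Ω₂) (fun δ h1 h2 => (key δ h1 h2).2) hγ hr0
    have hHγ : Hs a γ = (m : ℂ) * Ω₁ + (n : ℂ) * Ω₂ := hmn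
    rw [hHγ, L₁_apply hb] at hb1
    rw [hHγ, L₂_apply hb] at hb2
    have e1 : 2 * B * N * (1 + Real.log |((γ 1 0 : ℤ) : ℝ)|) =
        2 * C * (N : ℝ) ^ (κ + 1) * (1 + Real.log |(r : ℝ)|) := by
      rw [hBdef, Real.rpow_add hN0, Real.rpow_one]
      have : γ 1 0 = r := rfl
      rw [this]
      ring
    rw [e1] at hb1 hb2
    exact ⟨hb1, hb2⟩
  tfae_have 3 → 2 := by
    rintro ⟨κ, hκ, C, hC, h⟩ A
    refine ⟨κ + 1, by positivity, C * (1 + A), by positivity, ?_⟩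
    intro N hN a ha Ω₁ Ω₂ hb p q r s hdet hr _ _ hrA _ m n hmn
    have hN0 : (0 : ℝ) < N := by exact_mod_cast hN
    have hN1 : (1 : ℝ) ≤ N := by exact_mod_cast hN
    by_cases hr0 : r = 0
    · have h1 : Hs a (mk p q r s hdet) = 0 := by
        have h2 := (isCuspHom ha.toIsForm Complex.reLm).zero_of_lower
          (g := mk p q r s hdet) hr0
        have h3 := (isCuspHom ha.toIsForm Complex.imLm).zero_of_lower
          (g := mk p q r s hdet) hr0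
        exact Complex.ext h2 h3
      have hHγ : Hs a (mk p q r s hdet) = (m : ℂ) * Ω₁ + (n : ℂ) * Ω₂ := hmn
      rw [h1] at hHγ
      have h4 := L₁_apply hb m n
      have h5 := L₂_apply hb m n
      rw [← hHγ, map_zero] at h4 h5
      rw [← h4, ← h5, abs_zero]
      constructor <;> positivity
    · have h1 := h N hN a ha Ω₁ Ω₂ hb p q r s hdet hr hr0 m n hmn
      have h2 : Real.log |(r : ℝ)| ≤ A * N := by
        have h3 : |(r : ℝ)| ≤ (N : ℝ) ^ A := by exact_mod_cast hrA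
        have h4 : 0 < |(r : ℝ)| := by
          rw [abs_pos]
          exact_mod_cast hr0
        have h5 := Real.log_le_log h4 h3
        rw [Real.log_pow] at h5
        have h6 := Real.log_le_self hN0.le
        have h7 : (0 : ℝ) ≤ A := Nat.cast_nonneg _
        nlinarith
      have h3 : C * (N : ℝ) ^ κ * (1 + Real.log |(r : ℝ)|) ≤ C * (1 + A) * (N : ℝ) ^ (κ + 1) := by
        rw [Real.rpow_add hN0, Real.rpow_one]
        have h7 : (0 : ℝ) ≤ A := Nat.cast_nonneg _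
        calc C * (N : ℝ) ^ κ * (1 + Real.log |(r : ℝ)|)
            ≤ C * (N : ℝ) ^ κ * (N + A * N) := by gcongr
          _ = C * (1 + A) * ((N : ℝ) ^ κ * N) := by ring
      exact ⟨h1.1.trans h3, h1.2.trans h3⟩
  tfae_finish

end Pool.Agent.TH133.SH
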