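import Pool.Agent.TH133.SH.Main

/-!
# The levels `p` and `p ^ 2`: the matrices with lower left entry `N` suffice
-/

open Matrix Matrix.SpecialLinearGroup MatrixGroups ModularGroup

namespace Pool.Agent.TH133.SH

variable {N : ℕ} {φ : SL(2, ℤ) → ℝ}

/-- `N` is a prime or the square of a prime. -/
def PrimeLevel (N : ℕ) : Prop := ∃ p : ℕ, p.Prime ∧ (N = p ∨ N = p ^ 2)

lemma PrimeLevel.one_le (hN : PrimeLevel N) : 1 ≤ N := by
  obtain ⟨p, hp, rfl | rfl⟩ := hN
  · exact hp.one_lt.le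
  · exact Nat.one_le_pow _ _ hp.pos

/-- An integer is prime to `N`, or `N` divides its square and it is not a unit. -/
lemma PrimeLevel.cases (hN : PrimeLevel N) (a : ℤ) :
    IsCoprime a (N : ℤ) ∨ ((N : ℤ) ∣ a ^ 2 ∧ ¬ IsUnit a) := by
  obtain ⟨p, hp, h⟩ := hN
  have hp' : Prime (p : ℤ) := Nat.prime_iff_prime_int.1 hp
  by_cases hpa : (p : ℤ) ∣ a
  · right
    refine ⟨?_, fun hu => hp'.not_isUnit (isUnit_of_dvd_unit hpa hu)⟩
    rcases h with rfl | rfl
    · exact hpa.trans (dvd_pow_self _ two_ne_zero)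
    · push_cast
      exact pow_dvd_pow_of_dvd hpa 2
  · left
    have hc : IsCoprime a (p : ℤ) := ((hp'.coprime_iff_not_dvd).2 hpa).symm
    rcases h with rfl | rfl
    · exact hc
    · push_cast
      exact hc.pow_right

lemma halving (hN : PrimeLevel N) (h : IsCuspHom N φ) {X : ℝ}
    (hX : ∀ γ : SL(2, ℤ), γ 1 0 = N → |φ γ| ≤ X) (n : ℕ) :
    ∀ γ : SL(2, ℤ), InG N γ → |γ 1 0| < N * 2 ^ n → |φ γ| ≤ n * X := by
  have hN0 : (0 : ℤ) < N := by exact_mod_cast hN.one_le
  have hX0 : 0 ≤ X := by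
    refine (abs_nonneg _).trans (hX (mk 1 0 N 1 (by ring)) rfl)
  induction n with
  | zero =>
    intro γ hγ hlt
    obtain ⟨m, hm⟩ := hγ
    have h0 : γ 1 0 = 0 := by
      rw [hm, pow_zero, mul_one, abs_mul, abs_of_pos hN0] at hlt
      have : |m| < 1 := by
        by_contra hc
        push Not at hc
        nlinarith
      rw [Int.abs_lt_one_iff] at this
      rw [hm, this, mul_zero]
    rw [h.zero_of_lower h0]
    simp
  | succ n ih =>
    intro γ hγ hlt
    have hnX : (n : ℝ) * X ≤ ((n + 1 : ℕ) : ℝ) * X := by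
      push_cast
      nlinarith
    by_cases h0 : γ 1 0 = 0
    · rw [h.zero_of_lower h0, abs_zero]
      positivity
    obtain ⟨m, hm⟩ := id hγ
    have hm0 : m ≠ 0 := by
      rintro rfl
      exact h0 (by rw [hm, mul_zero])
    have hdet := det_eq γ
    set a := γ 0 0 with ha
    set b := γ 0 1 with hb
    set d := γ 1 1 with hd
    rw [hm] at hdet
    obtain ⟨k, hk⟩ := exists_near d m hm0
    set m₁ := d + k * m with hm₁
    set a₁ := N * b + k * a with ha₁
    have hdet₁ : a * m₁ - a₁ * m = 1 := by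
      rw [hm₁, ha₁]
      linear_combination hdet
    have hlt' : |m| < 2 ^ (n + 1) := by
      rw [hm, abs_mul, abs_of_pos hN0] at hlt
      exact lt_of_mul_lt_mul_left hlt hN0.le
    have hm₁lt : |m₁| < 2 ^ n := by
      rw [pow_succ] at hlt'
      linarith
    rcases hN.cases a₁ with hc | ⟨⟨u, hu⟩, hnu⟩
    · -- the next vertex is a cusp of the class of infinity
      have hc1 : IsCoprime a₁ m₁ := ⟨-m, a, by linear_combination hdet₁⟩
      have hc2 : IsCoprime a₁ (N * m₁) := hc.mul_right hc1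
      obtain ⟨x, y, hxy⟩ := hc2
      set δ := mk a₁ (-y) (N * m₁) x (by linear_combination hxy) with hδ
      have d00 : δ 0 0 = a₁ := rfl
      have d10 : δ 1 0 = N * m₁ := rfl
      have hδG : InG N δ := ⟨m₁, d10⟩
      have hδlt : |δ 1 0| < N * 2 ^ n := by
        rw [d10, abs_mul, abs_of_pos hN0]
        exact mul_lt_mul_of_pos_left hm₁lt hN0
      have h1 := ih δ hδG hδlt
      have h2 : (γ⁻¹ * δ) 1 0 = N := by
        rw [mul10, inv10, inv11, d00, d10, hm]
        linear_combination (N : ℤ) * hdet₁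
      have h3 := hX _ h2
      have h4 : φ δ = φ γ + φ (γ⁻¹ * δ) := by
        rw [← h.map_mul γ (γ⁻¹ * δ) hγ (hγ.inv.mul hδG)]
        congr 1
        group
      have h5 : φ γ = φ δ - φ (γ⁻¹ * δ) := by linarith
      rw [h5]
      calc |φ δ - φ (γ⁻¹ * δ)| ≤ |φ δ| + |φ (γ⁻¹ * δ)| := abs_sub _ _
        _ ≤ n * X + X := add_le_add h1 h3
        _ = ((n + 1 : ℕ) : ℝ) * X := by push_cast; ring
    · -- the next vertex is another cusp
      have hm₁0 : m₁ ≠ 0 := by
        intro h1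
        rw [h1] at hdet₁
        exact hnu (IsUnit.of_mul_eq_one (-m) (by linear_combination hdet₁))
      obtain ⟨t, ht⟩ := exists_near m m₁ hm₁0
      set P := mk (1 + t * a₁ * m₁) (-(t * u)) (t * N * m₁ ^ 2) (1 - t * a₁ * m₁)
        (by linear_combination (-(t ^ 2) * m₁ ^ 2) * hu) with hP
      have hPG : InG N P := ⟨t * m₁ ^ 2, by change t * N * m₁ ^ 2 = _; ring⟩
      have hP0 : φ P = 0 := h.parabolic P hPG (by
        change (1 + t * a₁ * m₁ + (1 - t * a₁ * m₁)) ^ 2 = 4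
        ring)
      have e10 : (P * γ) 1 0 = N * (m + t * m₁) := by
        rw [mul10, hm]
        change t * N * m₁ ^ 2 * γ 0 0 + (1 - t * a₁ * m₁) * (N * m) = _
        rw [← ha]
        linear_combination (t * N * m₁) * hdet₁
      have h1 := ih (P * γ) (hPG.mul hγ) (by
        rw [e10, abs_mul, abs_of_pos hN0]
        refine mul_lt_mul_of_pos_left ?_ hN0
        have := abs_nonneg (m + t * m₁)
        linarith)
      rw [h.map_mul P γ hPG hγ, hP0, zero_add] at h1
      exact h1.trans hnX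

/-- Logarithmic growth with the constant given by the matrices with lower left entry `N`. -/
lemma growth (hN : PrimeLevel N) (h : IsCuspHom N φ) {X : ℝ}
    (hX : ∀ γ : SL(2, ℤ), γ 1 0 = N → |φ γ| ≤ X) {γ : SL(2, ℤ)} (hγ : InG N γ) (h0 : γ 1 0 ≠ 0) :
    |φ γ| ≤ X * (1 + Real.logb 2 (|((γ 1 0 : ℤ) : ℝ)| / N)) := by
  have hN0 : (0 : ℤ) < N := by exact_mod_cast hN.one_le
  have hN0' : (0 : ℝ) < N := by exact_mod_cast hN0
  have hX0 : 0 ≤ X := by
    refine (abs_nonneg _).trans (hX (mk 1 0 N 1 (by ring)) rfl)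
  obtain ⟨m, hm⟩ := id hγ
  have hm0 : m ≠ 0 := by
    rintro rfl
    exact h0 (by rw [hm, mul_zero])
  have h1 := halving hN h hX (Nat.log 2 m.natAbs + 1) γ hγ (by
    rw [hm, abs_mul, abs_of_pos hN0]
    refine mul_lt_mul_of_pos_left ?_ hN0
    rw [Int.abs_eq_natAbs]
    exact_mod_cast Nat.lt_pow_succ_log_self (by norm_num) _)
  refine h1.trans ?_
  have e1 : |((γ 1 0 : ℤ) : ℝ)| / N = (m.natAbs : ℝ) := by
    rw [hm, Nat.cast_natAbs, Int.cast_mul, abs_mul, Int.cast_natCast, abs_of_pos hN0',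
      mul_div_assoc, mul_comm, div_mul_cancel₀ _ hN0'.ne', Int.cast_abs]
  rw [e1]
  have h2 : (Nat.log 2 m.natAbs : ℝ) ≤ Real.logb 2 (m.natAbs : ℝ) := by
    rw [Real.le_logb_iff_rpow_le (by norm_num) (by exact_mod_cast Int.natAbs_pos.2 hm0),
      Real.rpow_natCast]
    exact_mod_cast Nat.pow_log_le_self 2 (Int.natAbs_ne_zero.2 hm0)
  push_cast
  nlinarith

end Pool.Agent.TH133.SH
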