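import Pool.Agent.TH133.SH.Prime

/-!
# The Shimura map at the levels `p` and `p ^ 2`
-/

open Complex Matrix.SpecialLinearGroup MatrixGroups

namespace Pool.Agent.TH133.SH

/-- The question for the levels which are a prime or the square of a prime: there are constants `κ`,
`C` such that the coordinates of `H(γ)` are at most `C N ^ κ` for all newforms of such levels `N` and
all `γ ∈ Γ₀(N)` with entries of absolute value at most `N ^ 2`. -/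
def QuestionAtPrimes : Prop :=
  ∃ κ : ℝ, 0 < κ ∧ ∃ C : ℝ, 0 < C ∧ ∀ N : ℕ, PrimeLevel N → ∀ a : ℕ → ℤ, IsNewform N a →
    ∀ Ω₁ Ω₂ : ℂ, IsBasis N a Ω₁ Ω₂ → ∀ p q r s : ℤ, p * s - q * r = 1 → (N : ℤ) ∣ r →
      |p| ≤ (N : ℤ) ^ 2 → |q| ≤ (N : ℤ) ^ 2 → |r| ≤ (N : ℤ) ^ 2 → |s| ≤ (N : ℤ) ^ 2 →
      CoordBound a Ω₁ Ω₂ p q r s (C * (N : ℝ) ^ κ)

/-- The coordinates of `H(γ)` are at most `C N ^ κ` for all newforms of levels `N` as above and all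
`γ ∈ Γ₀(N)` with lower left entry `N`. -/
def SymbolBound (κ C : ℝ) : Prop :=
  ∀ N : ℕ, PrimeLevel N → ∀ a : ℕ → ℤ, IsNewform N a → ∀ Ω₁ Ω₂ : ℂ, IsBasis N a Ω₁ Ω₂ →
    ∀ p q s : ℤ, p * s - q * N = 1 → CoordBound a Ω₁ Ω₂ p q N s (C * (N : ℝ) ^ κ)

/-- The coordinates of `H(γ)` are at most `C N ^ κ (1 + log₂ (|r| / N))` for all newforms of levels
`N` as above and all `γ ∈ Γ₀(N)` with lower left entry `r ≠ 0`. -/
def GrowthBound (κ C : ℝ) : Prop :=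
  ∀ N : ℕ, PrimeLevel N → ∀ a : ℕ → ℤ, IsNewform N a → ∀ Ω₁ Ω₂ : ℂ, IsBasis N a Ω₁ Ω₂ →
    ∀ p q r s : ℤ, p * s - q * r = 1 → (N : ℤ) ∣ r → r ≠ 0 →
      CoordBound a Ω₁ Ω₂ p q r s (C * (N : ℝ) ^ κ * (1 + Real.logb 2 (|(r : ℝ)| / N)))

lemma growthBound_of_symbolBound {κ C : ℝ} (h : SymbolBound κ C) : GrowthBound κ C := by
  intro N hN a ha Ω₁ Ω₂ hb p q r s hdet hr hr0 m n hmn
  set X : ℝ := C * (N : ℝ) ^ κ with hXdef
  set γ := mk p q r s hdet with hγdef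
  have hγ : InG N γ := hr
  have key : ∀ δ : SL(2, ℤ), δ 1 0 = N → |L₁ Ω₁ Ω₂ (Hs a δ)| ≤ X ∧ |L₂ Ω₂ (Hs a δ)| ≤ X := by
    intro δ hδ
    obtain ⟨m', n', hmn'⟩ := lattice ha.toIsForm hb (z := Hs a δ)
      ⟨δ, by unfold InG; rw [hδ], rfl⟩
    have h0 := det_eq δ
    rw [hδ] at h0
    have h1 := h N hN a ha Ω₁ Ω₂ hb (δ 0 0) (δ 0 1) (δ 1 1) h0 m' n' (by
      rw [← hmn']
      change Hval a (δ 0 0) (δ 0 1) N (δ 1 1) = Hval a (δ 0 0) (δ 0 1) (δ 1 0) (δ 1 1)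
      rw [hδ])
    rw [hmn', L₁_apply hb, L₂_apply hb]
    exact h1
  have hb1 := growth hN (isCuspHom ha.toIsForm (L₁ Ω₁ Ω₂)) (fun δ h1 => (key δ h1).1) hγ hr0
  have hb2 := growth hN (isCuspHom ha.toIsForm (L₂ Ω₂)) (fun δ h1 => (key δ h1).2) hγ hr0
  have hHγ : Hs a γ = (m : ℂ) * Ω₁ + (n : ℂ) * Ω₂ := hmn
  simp only [hHγ, L₁_apply hb] at hb1
  simp only [hHγ, L₂_apply hb] at hb2
  exact ⟨hb1, hb2⟩

lemma symbolBound_of_growthBound {κ C : ℝ} (h : GrowthBound κ C) : SymbolBound κ C := by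
  intro N hN a ha Ω₁ Ω₂ hb p q s hdet
  have hN0 : (N : ℤ) ≠ 0 := by exact_mod_cast (Nat.one_le_iff_ne_zero.1 hN.one_le)
  have h1 := h N hN a ha Ω₁ Ω₂ hb p q N s hdet dvd_rfl hN0
  have hN0' : (0 : ℝ) < N := by exact_mod_cast hN.one_le
  rwa [Int.cast_natCast, abs_of_pos hN0', div_self hN0'.ne', Real.logb_one, add_zero,
    mul_one] at h1

lemma symbolBound_of_question (h : QuestionAtPrimes) :
    ∃ κ : ℝ, 0 < κ ∧ ∃ C : ℝ, 0 < C ∧ SymbolBound κ C := by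
  obtain ⟨κ, hκ, C, hC, h⟩ := h
  refine ⟨κ, hκ, C, hC, ?_⟩
  intro N hN a ha Ω₁ Ω₂ hb p q s hdet m n hmn
  set B : ℝ := C * (N : ℝ) ^ κ with hBdef
  set γ := mk p q N s hdet with hγdef
  have hγ : InG N γ := dvd_rfl
  have key : ∀ δ : SL(2, ℤ), InG N δ → Bounded ((N : ℤ) ^ 2) δ →
      |L₁ Ω₁ Ω₂ (Hs a δ)| ≤ B ∧ |L₂ Ω₂ (Hs a δ)| ≤ B := by
    intro δ hδ hδ'
    obtain ⟨m', n', hmn'⟩ := lattice ha.toIsForm hb (z := Hs a δ) ⟨δ, hδ, rfl⟩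
    have h1 := h N hN a ha Ω₁ Ω₂ hb (δ 0 0) (δ 0 1) (δ 1 0) (δ 1 1) (det_eq δ) hδ (hδ' 0 0)
      (hδ' 0 1) (hδ' 1 0) (hδ' 1 1) m' n' hmn'
    rw [hmn', L₁_apply hb, L₂_apply hb]
    exact h1
  have hle : |γ 1 0| ≤ (N : ℤ) ^ 2 := by
    change |(N : ℤ)| ≤ (N : ℤ) ^ 2
    have h1 : (1 : ℤ) ≤ N := by exact_mod_cast hN.one_le
    rw [abs_of_pos (by linarith)]
    nlinarith
  have hb1 := extend hN.one_le (isCuspHom ha.toIsForm (L₁ Ω₁ Ω₂))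
    (fun δ h1 h2 => (key δ h1 h2).1) γ hγ hle
  have hb2 := extend hN.one_le (isCuspHom ha.toIsForm (L₂ Ω₂))
    (fun δ h1 h2 => (key δ h1 h2).2) γ hγ hle
  have hHγ : Hs a γ = (m : ℂ) * Ω₁ + (n : ℂ) * Ω₂ := hmn
  simp only [hHγ, L₁_apply hb] at hb1
  simp only [hHγ, L₂_apply hb] at hb2
  exact ⟨hb1, hb2⟩

lemma question_of_growthBound {κ C : ℝ} (hκ : 0 < κ) (hC : 0 < C) (h : GrowthBound κ C) :
    QuestionAtPrimes := by
  refine ⟨κ + 1, by positivity, 2 * C, by positivity, ?_⟩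
  intro N hN a ha Ω₁ Ω₂ hb p q r s hdet hr _ _ hrA _ m n hmn
  have hN0 : (0 : ℝ) < N := by exact_mod_cast hN.one_le
  have hN1 : (1 : ℝ) ≤ N := by exact_mod_cast hN.one_le
  by_cases hr0 : r = 0
  · have h1 : Hs a (mk p q r s hdet) = 0 := by
      have h2 := (isCuspHom ha.toIsForm Complex.reLm).zero_of_lower
        (g := mk p q r s hdet) hr0
      have h3 := (isCuspHom ha.toIsForm Complex.imLm).zero_of_lower
        (g := mk p q r s hdet) hr0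
      exact Complex.ext h2 h3
    have hHγ : Hs a (mk p q r s hdet) = (m : ℂ) * Ω₁ + (n : ℂ) * Ω₂ := hmn
    rw [h1] at hHγ
    have h4 := L₁_apply hb m n
    have h5 := L₂_apply hb m n
    rw [← hHγ, map_zero] at h4 h5
    rw [← h4, ← h5, abs_zero]
    constructor <;> positivity
  · have h1 := h N hN a ha Ω₁ Ω₂ hb p q r s hdet hr hr0 m n hmn
    have hr1 : 0 < |(r : ℝ)| := by
      rw [abs_pos]
      exact_mod_cast hr0
    have h2 : Real.logb 2 (|(r : ℝ)| / N) ≤ N := by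
      have h3 : |(r : ℝ)| ≤ (N : ℝ) ^ 2 := by exact_mod_cast hrA
      have h4 : |(r : ℝ)| / N ≤ N := by
        rw [div_le_iff₀ hN0]
        nlinarith
      have h5 : (N : ℝ) ≤ (2 : ℝ) ^ (N : ℝ) := by
        rw [Real.rpow_natCast]
        exact_mod_cast (Nat.lt_pow_self (by norm_num)).le
      rw [Real.logb_le_iff_le_rpow (by norm_num) (by positivity)]
      exact h4.trans h5
    have h3 : C * (N : ℝ) ^ κ * (1 + Real.logb 2 (|(r : ℝ)| / N)) ≤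
        2 * C * (N : ℝ) ^ (κ + 1) := by
      rw [Real.rpow_add hN0, Real.rpow_one]
      calc C * (N : ℝ) ^ κ * (1 + Real.logb 2 (|(r : ℝ)| / N))
          ≤ C * (N : ℝ) ^ κ * (N + N) := by gcongr
        _ = 2 * C * ((N : ℝ) ^ κ * N) := by ring
    exact ⟨h1.1.trans h3, h1.2.trans h3⟩

theorem prime_levels :
    (QuestionAtPrimes ↔ ∃ κ : ℝ, 0 < κ ∧ ∃ C : ℝ, 0 < C ∧ SymbolBound κ C) ∧
      ∀ κ C : ℝ, SymbolBound κ C ↔ GrowthBound κ C := by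
  refine ⟨⟨symbolBound_of_question, ?_⟩, fun κ C =>
    ⟨growthBound_of_symbolBound, symbolBound_of_growthBound⟩⟩
  rintro ⟨κ, hκ, C, hC, h⟩
  exact question_of_growthBound hκ hC (growthBound_of_symbolBound h)

end Pool.Agent.TH133.SH
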